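import Pool.Agent.Y113.W.Tup

/-!
# Relations between infinitely many groups of numbers: abstract part

`p j i`, `i ∈ I j`, are the coordinates of a point of a set `F j`. If for each `j` the relations of bounded degree
between the coordinates of `p j` with coefficients in a space `W j`, which contains the coordinates of the `p i`, `i < j`,
hold on `F j`, then the same is true for the product of the `F j`.
-/

set_option autoImplicit false

namespace Pool.Agent.L5helper73.Inf

open Pool.Agent.Y113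

/-- substitution, any index type -/
lemma DC_subst {ι τ : Type} {m : ℕ} {V W : Submodule ℚ ℂ} (h1 : (1 : ℂ) ∈ W) (L : ι → MvPolynomial τ ℂ)
    (hL : ∀ i, DC 1 W (L i)) {P : MvPolynomial ι ℂ} (hP : DC m V P) : DC m (V * W ^ m) (MvPolynomial.aeval L P) := by
  classical
  rw [MvPolynomial.aeval_def, MvPolynomial.eval₂_eq]
  refine DC.sum _ fun s hs => ?_
  have hs' : ∑ i ∈ s.support, s i ≤ m := by
    have h2 := MvPolynomial.le_totalDegree hs
    exact h2.trans hP.1
  have h2 : DC 0 V (MvPolynomial.C (MvPolynomial.coeff s P) : MvPolynomial τ ℂ) := by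
    refine ⟨by simp, fun t => ?_⟩
    rw [MvPolynomial.coeff_C]
    split_ifs
    · exact hP.2 s
    · exact Submodule.zero_mem _
  have h3 := h2.mul (DC.prod_pow' s.support L hL s)
  rw [zero_add] at h3
  refine h3.mono hs' ?_
  exact Submodule.mul_le.2 fun a ha b hb => Submodule.mul_mem_mul ha (pow_mono_sub h1 hs' hb)

lemma DC_C {τ : Type} {W : Submodule ℚ ℂ} {z : ℂ} (hz : z ∈ W) : DC 1 W (MvPolynomial.C z : MvPolynomial τ ℂ) := by
  classical
  refine ⟨by simp, fun t => ?_⟩
  rw [MvPolynomial.coeff_C]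
  split_ifs
  · exact hz
  · exact Submodule.zero_mem _

lemma DC_X {τ : Type} {W : Submodule ℚ ℂ} (h1 : (1 : ℂ) ∈ W) (i : τ) : DC 1 W (MvPolynomial.X i : MvPolynomial τ ℂ) := by
  classical
  refine ⟨by simp, fun t => ?_⟩
  rw [MvPolynomial.coeff_X]
  split_ifs
  · exact h1
  · exact Submodule.zero_mem _

variable {I : ℕ → Type}

/-- replace the group `s` by unknowns -/
noncomputable def rep (s : ℕ) (y : (Σ j, I j) → ℂ) (x : Σ j, I j) : MvPolynomial (I s) ℂ :=
  if h : x.1 = s then MvPolynomial.X (h ▸ x.2) else MvPolynomial.C (y x)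

/-- the point with the group `s` replaced -/
noncomputable def upd (s : ℕ) (y : (Σ j, I j) → ℂ) (z : I s → ℂ) (x : Σ j, I j) : ℂ :=
  if h : x.1 = s then z (h ▸ x.2) else y x

lemma aeval_rep (s : ℕ) (y : (Σ j, I j) → ℂ) (z : I s → ℂ) (P : MvPolynomial (Σ j, I j) ℂ) :
    MvPolynomial.aeval z (MvPolynomial.aeval (rep s y) P) = MvPolynomial.aeval (upd s y z) P := by
  have h1 := MvPolynomial.comp_aeval_apply (f := rep s y) (MvPolynomial.aeval z : MvPolynomial (I s) ℂ →ₐ[ℂ] ℂ) P
  rw [h1]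
  congr 2
  funext x
  unfold rep upd
  split_ifs <;> simp

lemma upd_self (s : ℕ) (y : (Σ j, I j) → ℂ) (z : I s → ℂ) (i : I s) : upd s y z ⟨s, i⟩ = z i := by
  unfold upd
  simp

lemma upd_ne {s j : ℕ} (h : j ≠ s) (y : (Σ j, I j) → ℂ) (z : I s → ℂ) (i : I j) : upd s y z ⟨j, i⟩ = y ⟨j, i⟩ := by
  unfold upd
  simp [h]

/-- an index after all the variables -/
lemma exists_bound {R : Type} [CommSemiring R] (P : MvPolynomial (Σ j, I j) R) : ∃ m : ℕ, ∀ x ∈ P.vars, x.1 < m := by
  classical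
  refine ⟨P.vars.sup (fun x => x.1) + 1, fun x hx => ?_⟩
  exact Nat.lt_succ_of_le (Finset.le_sup (f := fun x : (Σ j, I j) => x.1) hx)

/-- equality of values at points which agree on the variables -/
lemma aeval_congr {σ : Type} {P : MvPolynomial σ ℂ} {x y : σ → ℂ} (h : ∀ i ∈ P.vars, x i = y i) :
    MvPolynomial.aeval x P = MvPolynomial.aeval y P :=
  MvPolynomial.eval₂Hom_congr' rfl (fun i hi _ => h i hi) rfl

/-- the first step: points with coordinates in the spaces -/
lemma step1 {p : (Σ j, I j) → ℂ} {F R : ∀ j, Set (I j → ℂ)} {W : ℕ → Submodule ℚ ℂ} {δ : ℕ → ℕ}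
    (hRF : ∀ j, R j ⊆ F j) (hRW : ∀ j k, ∀ y ∈ R j, ∀ i, y i ∈ W k) (hW1 : ∀ k, (1 : ℂ) ∈ W k) (hWm : Monotone W)
    (hpW : ∀ j k, j < k → ∀ i, p ⟨j, i⟩ ∈ W k) {J : Set ℕ}
    (hJ : ∀ j ∈ J, ∀ Q : MvPolynomial (I j) ℂ, DC (δ j) ((W j) ^ (δ j)) Q →
      MvPolynomial.aeval (fun i => p ⟨j, i⟩) Q = 0 → ∀ X ∈ F j, MvPolynomial.aeval X Q = 0)
    {k d : ℕ} (hδ : ∀ j ∈ J, k ≤ j → 2 * d ≤ δ j) {P : MvPolynomial (Σ j, I j) ℂ} (hP : DC d ((W k) ^ d) P)
    (hvars : ∀ x ∈ P.vars, x.1 ∈ J ∧ k ≤ x.1) (h0 : MvPolynomial.aeval p P = 0)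
    {Y : (Σ j, I j) → ℂ} (hY : ∀ j, (fun i => Y ⟨j, i⟩) ∈ R j) : MvPolynomial.aeval Y P = 0 := by
  classical
  obtain ⟨m, hm⟩ := exists_bound P
  set mix : ℕ → (Σ j, I j) → ℂ := fun s x => if s ≤ x.1 then Y x else p x with hmix
  have key : ∀ r s : ℕ, m ≤ s + r → MvPolynomial.aeval (mix s) P = 0 := by
    intro r
    induction r with
    | zero =>
      intro s hs
      rw [← h0]
      refine aeval_congr fun x hx => ?_
      have h1 := hm x hx
      rw [hmix]
      simp only
      rw [if_neg (by omega)]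
    | succ r ih =>
      intro s hs
      have h1 := ih (s + 1) (by omega)
      by_cases hsJ : s ∈ J ∧ k ≤ s
      · obtain ⟨hsJ, hks⟩ := hsJ
        have h2 : ∀ z : I s → ℂ, MvPolynomial.aeval z (MvPolynomial.aeval (rep s (mix s)) P) =
            MvPolynomial.aeval (upd s (mix s) z) P := fun z => aeval_rep s (mix s) z P
        have hD : DC (δ s) ((W s) ^ (δ s)) (MvPolynomial.aeval (rep s (mix s)) P) := by
          have h3 : ∀ x, DC 1 (W s) (rep s (mix s) x) := by
            intro x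
            unfold rep
            split_ifs with h
            · exact DC_X (hW1 s) _
            · refine DC_C ?_
              rw [hmix]
              simp only
              split_ifs with h4
              · exact hRW x.1 s _ (hY x.1) x.2
              · exact hpW x.1 s (by omega) x.2
          have h4 := DC_subst (hW1 s) (rep s (mix s)) h3 hP
          refine h4.mono ?_ ?_
          · have := hδ s hsJ hks
            omega
          · have h5 : (W k) ^ d * (W s) ^ d ≤ (W s) ^ (d + d) := by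
              rw [pow_add]
              exact mul_le_mul' (pow_le_pow_left' (hWm hks) d) le_rfl
            refine h5.trans (pow_mono_sub (hW1 s) ?_)
            have := hδ s hsJ hks
            omega
        have h5 := hJ s hsJ _ hD (by
          rw [h2, ← h1]
          congr 2
          funext x
          obtain ⟨j, i⟩ := x
          by_cases h : j = s
          · subst h
            rw [upd_self]
            simp [hmix]
          · rw [upd_ne h]
            simp only [hmix]
            by_cases h6 : s ≤ j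
            · rw [if_pos h6, if_pos (by omega)]
            · rw [if_neg h6, if_neg (by omega)]) (fun i => Y ⟨s, i⟩) (hRF s (hY s))
        rw [h2] at h5
        rw [← h5]
        congr 2
        funext x
        obtain ⟨j, i⟩ := x
        by_cases h : j = s
        · subst h
          rw [upd_self]
          simp [hmix]
        · rw [upd_ne h]
      · rw [← h1]
        refine aeval_congr fun x hx => ?_
        have h2 := hvars x hx
        have h3 : x.1 ≠ s := by
          rintro rfl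
          exact hsJ h2
        simp only [hmix]
        by_cases h6 : s ≤ x.1
        · rw [if_pos h6, if_pos (by omega)]
        · rw [if_neg h6, if_neg (by omega)]
  have h1 := key m 0 (by omega)
  have h2 : mix 0 = Y := by
    funext x
    simp [hmix]
  rw [h2] at h1
  exact h1

/-- the second step: density -/
lemma step2 {F R : ∀ j, Set (I j → ℂ)} (hne : ∀ j, (R j).Nonempty)
    (hd : ∀ j, ∀ Q : MvPolynomial (I j) ℂ, (∀ y ∈ R j, MvPolynomial.aeval y Q = 0) → ∀ y ∈ F j, MvPolynomial.aeval y Q = 0)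
    {P : MvPolynomial (Σ j, I j) ℂ}
    (h0 : ∀ Y : (Σ j, I j) → ℂ, (∀ j, (fun i => Y ⟨j, i⟩) ∈ R j) → MvPolynomial.aeval Y P = 0)
    {Y : (Σ j, I j) → ℂ} (hY : ∀ j, (fun i => Y ⟨j, i⟩) ∈ F j) : MvPolynomial.aeval Y P = 0 := by
  classical
  obtain ⟨m, hm⟩ := exists_bound P
  have key : ∀ s : ℕ, ∀ Y : (Σ j, I j) → ℂ, (∀ j, j < s → (fun i => Y ⟨j, i⟩) ∈ F j) →
      (∀ j, s ≤ j → (fun i => Y ⟨j, i⟩) ∈ R j) → MvPolynomial.aeval Y P = 0 := by
    intro s
    induction s with
    | zero =>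
      intro Y _ h2
      exact h0 Y fun j => h2 j (Nat.zero_le j)
    | succ s ih =>
      intro Y h1 h2
      have h3 := hd s (MvPolynomial.aeval (rep s Y) P) (fun y hy => by
        rw [aeval_rep]
        refine ih _ (fun j hj => ?_) (fun j hj => ?_)
        · have : (fun i => upd s Y y ⟨j, i⟩) = fun i => Y ⟨j, i⟩ := funext fun i => upd_ne (by omega) _ _ _
          rw [this]
          exact h1 j (by omega)
        · by_cases hjs : j = s
          · subst hjs
            have : (fun i => upd j Y y ⟨j, i⟩) = y := funext fun i => upd_self _ _ _ _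
            rw [this]
            exact hy
          · have : (fun i => upd s Y y ⟨j, i⟩) = fun i => Y ⟨j, i⟩ := funext fun i => upd_ne hjs _ _ _
            rw [this]
            exact h2 j (by omega)) (fun i => Y ⟨s, i⟩) (h1 s (by omega))
      rw [aeval_rep] at h3
      rw [← h3]
      congr 2
      funext x
      obtain ⟨j, i⟩ := x
      by_cases h : j = s
      · subst h
        rw [upd_self]
      · rw [upd_ne h]
  choose y0 hy0 using hne
  have h1 := key m (fun x => if x.1 < m then Y x else y0 x.1 x.2) (fun j hj => by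
    have : (fun i => (fun x : Σ j, I j => if x.1 < m then Y x else y0 x.1 x.2) ⟨j, i⟩) = fun i => Y ⟨j, i⟩ := by
      funext i
      simp only
      rw [if_pos hj]
    rw [this]
    exact hY j) (fun j hj => by
    have : (fun i => (fun x : Σ j, I j => if x.1 < m then Y x else y0 x.1 x.2) ⟨j, i⟩) = y0 j := by
      funext i
      simp only
      rw [if_neg (by omega)]
    rw [this]
    exact hy0 j)
  rw [← h1]
  refine aeval_congr fun x hx => ?_
  rw [if_pos (hm x hx)]

/-- the third step: irreducibility, two functions -/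
lemma step3 {F : ∀ j, Set (I j → ℂ)}
    (hi : ∀ j, ∀ Q Q' : MvPolynomial (I j) ℂ, (∃ y ∈ F j, MvPolynomial.aeval y Q ≠ 0) →
      (∃ y ∈ F j, MvPolynomial.aeval y Q' ≠ 0) → ∃ y ∈ F j, MvPolynomial.aeval y Q ≠ 0 ∧ MvPolynomial.aeval y Q' ≠ 0)
    {P P' : MvPolynomial (Σ j, I j) ℂ}
    {Y Y' : (Σ j, I j) → ℂ} (hY : ∀ j, (fun i => Y ⟨j, i⟩) ∈ F j) (hY' : ∀ j, (fun i => Y' ⟨j, i⟩) ∈ F j)
    (hP : MvPolynomial.aeval Y P ≠ 0) (hP' : MvPolynomial.aeval Y' P' ≠ 0) :
    ∃ Z : (Σ j, I j) → ℂ, (∀ j, (fun i => Z ⟨j, i⟩) ∈ F j) ∧ MvPolynomial.aeval Z P ≠ 0 ∧ MvPolynomial.aeval Z P' ≠ 0 := by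
  classical
  obtain ⟨m, hm⟩ := exists_bound P
  have key : ∀ s : ℕ, ∃ Z Z' : (Σ j, I j) → ℂ, (∀ j, (fun i => Z ⟨j, i⟩) ∈ F j) ∧ (∀ j, (fun i => Z' ⟨j, i⟩) ∈ F j) ∧
      (∀ x : Σ j, I j, x.1 < s → Z x = Z' x) ∧ MvPolynomial.aeval Z P ≠ 0 ∧ MvPolynomial.aeval Z' P' ≠ 0 := by
    intro s
    induction s with
    | zero => exact ⟨Y, Y', hY, hY', fun x hx => absurd hx (Nat.not_lt_zero _), hP, hP'⟩
    | succ s ih =>
      obtain ⟨Z, Z', h1, h2, h3, h4, h5⟩ := ih
      have e1 : upd s Z (fun i => Z ⟨s, i⟩) = Z := by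
        funext x
        obtain ⟨j, i⟩ := x
        by_cases h : j = s
        · subst h
          rw [upd_self]
        · rw [upd_ne h]
      have e2 : upd s Z' (fun i => Z' ⟨s, i⟩) = Z' := by
        funext x
        obtain ⟨j, i⟩ := x
        by_cases h : j = s
        · subst h
          rw [upd_self]
        · rw [upd_ne h]
      obtain ⟨y, hy, h6, h7⟩ := hi s (MvPolynomial.aeval (rep s Z) P) (MvPolynomial.aeval (rep s Z') P')
        ⟨_, h1 s, by rw [aeval_rep, e1]; exact h4⟩ ⟨_, h2 s, by rw [aeval_rep, e2]; exact h5⟩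
      rw [aeval_rep] at h6 h7
      have hmem : ∀ Z : (Σ j, I j) → ℂ, (∀ j, (fun i => Z ⟨j, i⟩) ∈ F j) → ∀ j, (fun i => upd s Z y ⟨j, i⟩) ∈ F j := by
        intro Z hZ j
        by_cases hjs : j = s
        · subst hjs
          have : (fun i => upd j Z y ⟨j, i⟩) = y := funext fun i => upd_self _ _ _ _
          rw [this]
          exact hy
        · have : (fun i => upd s Z y ⟨j, i⟩) = fun i => Z ⟨j, i⟩ := funext fun i => upd_ne hjs _ _ _
          rw [this]
          exact hZ j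
      refine ⟨_, _, hmem Z h1, hmem Z' h2, fun x hx => ?_, h6, h7⟩
      obtain ⟨j, i⟩ := x
      by_cases hjs : j = s
      · subst hjs
        rw [upd_self, upd_self]
      · rw [upd_ne hjs, upd_ne hjs]
        exact h3 _ (by simp only at hx ⊢; omega)
  obtain ⟨Z, Z', h1, h2, h3, h4, h5⟩ := key m
  refine ⟨Z', h2, ?_, h5⟩
  have h6 : MvPolynomial.aeval Z' P = MvPolynomial.aeval Z P := aeval_congr fun x hx => (h3 x (hm x hx)).symm
  rw [h6]
  exact h4

/-- irreducibility, several functions -/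
lemma step4 {F : ∀ j, Set (I j → ℂ)} (hne : ∀ j, (F j).Nonempty)
    (hi : ∀ j, ∀ Q Q' : MvPolynomial (I j) ℂ, (∃ y ∈ F j, MvPolynomial.aeval y Q ≠ 0) →
      (∃ y ∈ F j, MvPolynomial.aeval y Q' ≠ 0) → ∃ y ∈ F j, MvPolynomial.aeval y Q ≠ 0 ∧ MvPolynomial.aeval y Q' ≠ 0)
    {ψ : Type} (S : Finset ψ) (P : ψ → MvPolynomial (Σ j, I j) ℂ)
    (h : ∀ i ∈ S, ∃ Y : (Σ j, I j) → ℂ, (∀ j, (fun i => Y ⟨j, i⟩) ∈ F j) ∧ MvPolynomial.aeval Y (P i) ≠ 0) :
    ∃ Y : (Σ j, I j) → ℂ, (∀ j, (fun i => Y ⟨j, i⟩) ∈ F j) ∧ ∀ i ∈ S, MvPolynomial.aeval Y (P i) ≠ 0 := by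
  classical
  have key : ∃ Y : (Σ j, I j) → ℂ, (∀ j, (fun i => Y ⟨j, i⟩) ∈ F j) ∧ MvPolynomial.aeval Y (∏ i ∈ S, P i) ≠ 0 := by
    induction S using Finset.induction_on with
    | empty =>
      choose y0 hy0 using hne
      refine ⟨fun x => y0 x.1 x.2, fun j => hy0 j, ?_⟩
      rw [Finset.prod_empty, map_one]
      exact one_ne_zero
    | insert i S hiS ih =>
      obtain ⟨Y, hY1, hY2⟩ := ih fun l hl => h l (Finset.mem_insert_of_mem hl)
      obtain ⟨Y', hY'1, hY'2⟩ := h i (Finset.mem_insert_self _ _)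
      obtain ⟨Z, hZ, hZ1, hZ2⟩ := step3 hi hY'1 hY1 hY'2 hY2
      refine ⟨Z, hZ, ?_⟩
      rw [Finset.prod_insert hiS, map_mul]
      exact mul_ne_zero hZ1 hZ2
  obtain ⟨Y, hY1, hY2⟩ := key
  refine ⟨Y, hY1, fun i hi => ?_⟩
  rw [map_prod] at hY2
  exact Finset.prod_ne_zero_iff.1 hY2 i hi

end Pool.Agent.L5helper73.Inf
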