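import Pool.Agent.Y118.HG.Kfin
import Pool.Agent.L5helper73.Inf.A

/-!
# The fibres of the torsors: rational points up to `2πi`, density, irreducibility
-/

set_option autoImplicit false

open Matrix Polynomial

namespace Pool.Agent.L5helper73.Inf

open Pool.Agent.Y118.HP Pool.Agent.Y118.HG Pool.Agent.Y113

variable {n : ℕ}

/-- the diagonal matrix with entries `lam`, `1`, `lam`, `1`, … -/
def Dg {K : Type*} [CommRing K] (n : ℕ) (lam : K) : Matrix (Fin n) (Fin n) K :=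
  Matrix.diagonal fun r => if Even (r : ℕ) then lam else 1

theorem Dg_jm {K : Type*} [Field K] (lam : K) : Dg n lam * jm K n * (Dg n lam).transpose = lam • jm K n := by
  ext r s
  unfold Dg
  rw [Matrix.diagonal_transpose, Matrix.mul_diagonal, Matrix.diagonal_mul, Matrix.smul_apply, jm_apply, smul_eq_mul]
  by_cases h : (r : ℕ) = s + 1 ∨ (s : ℕ) = r + 1
  · rw [if_pos h]
    have h1 : Even (r : ℕ) ↔ ¬ Even (s : ℕ) := by
      rcases h with h | h
      · rw [h, Nat.even_add_one]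
      · rw [h, Nat.even_add_one, not_not]
    by_cases h2 : Even (s : ℕ)
    · rw [if_neg (by rw [h1]; exact not_not.2 h2), if_pos h2]
      ring
    · rw [if_pos (h1.2 h2), if_neg h2]
      ring
  · rw [if_neg h, mul_zero, zero_mul, mul_zero]

theorem Dg_det {K : Type*} [Field K] {lam : K} (h : lam ≠ 0) : IsUnit (Dg n lam).det := by
  rw [isUnit_iff_ne_zero]
  unfold Dg
  rw [Matrix.det_diagonal]
  refine Finset.prod_ne_zero_iff.2 fun r _ => ?_
  split_ifs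
  · exact h
  · exact one_ne_zero

theorem Dg_map {K L : Type*} [CommRing K] [CommRing L] (φ : K →+* L) (lam : K) :
    (Dg n lam).map φ = Dg n (φ lam) := by
  ext r s
  unfold Dg
  rw [Matrix.map_apply]
  by_cases h : r = s
  · subst h
    rw [Matrix.diagonal_apply_eq, Matrix.diagonal_apply_eq]
    split_ifs <;> simp
  · rw [Matrix.diagonal_apply_ne _ h, Matrix.diagonal_apply_ne _ h, map_zero]

/-- the fibre of the torsor over `lam` -/
def FM (Q : Matrix (Fin n) (Fin n) ℂ) (lam : ℂ) : Set (Matrix (Fin n) (Fin n) ℂ) :=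
  {X | X * Q * X.transpose = lam • jm ℂ n}

theorem Dg_mem {Q X0 : Matrix (Fin n) (Fin n) ℂ} (hX0 : X0 * Q * X0.transpose = jm ℂ n) (lam : ℂ)
    {g : Matrix (Fin n) (Fin n) ℂ} (hg : g ∈ SpS ℂ n) : Dg n lam * g * X0 ∈ FM Q lam := by
  have h1 : g * jm ℂ n * g.transpose = jm ℂ n := hg
  show Dg n lam * g * X0 * Q * (Dg n lam * g * X0).transpose = lam • jm ℂ n
  rw [Matrix.transpose_mul, Matrix.transpose_mul]
  calc Dg n lam * g * X0 * Q * (X0.transpose * (g.transpose * (Dg n lam).transpose))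
      = Dg n lam * (g * (X0 * Q * X0.transpose) * g.transpose) * (Dg n lam).transpose := by
        simp only [Matrix.mul_assoc]
    _ = lam • jm ℂ n := by rw [hX0, h1, Dg_jm]

theorem exists_Dg (hn : Even n) {Q X0 : Matrix (Fin n) (Fin n) ℂ} (hX0 : X0 * Q * X0.transpose = jm ℂ n) {lam : ℂ}
    (hl : lam ≠ 0) {X : Matrix (Fin n) (Fin n) ℂ} (hX : X ∈ FM Q lam) :
    ∃ g ∈ SpS ℂ n, X = Dg n lam * g * X0 := by
  have hdet : IsUnit X0.det := by
    rw [isUnit_iff_ne_zero]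
    intro h0
    have := congrArg Matrix.det hX0
    rw [Matrix.det_mul, Matrix.det_mul, h0, zero_mul, zero_mul] at this
    exact jm_det hn this.symm
  have hD := Dg_det (n := n) hl
  have hX1 : X * Q * X.transpose = lam • jm ℂ n := hX
  refine ⟨(Dg n lam)⁻¹ * X * X0⁻¹, ?_, ?_⟩
  · have hinv := nonsing_inv_mul X0 hdet
    have hQ : X0⁻¹ * jm ℂ n * (X0⁻¹).transpose = Q := by
      have hT : X0.transpose * (X0⁻¹).transpose = 1 := by
        rw [← Matrix.transpose_mul, hinv, Matrix.transpose_one]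
      calc X0⁻¹ * jm ℂ n * (X0⁻¹).transpose =
          X0⁻¹ * (X0 * Q * X0.transpose) * (X0⁻¹).transpose := by rw [hX0]
        _ = (X0⁻¹ * X0) * Q * (X0.transpose * (X0⁻¹).transpose) := by simp only [Matrix.mul_assoc]
        _ = Q := by rw [hinv, hT, one_mul, mul_one]
    show (Dg n lam)⁻¹ * X * X0⁻¹ * jm ℂ n * ((Dg n lam)⁻¹ * X * X0⁻¹).transpose = jm ℂ n
    rw [Matrix.transpose_mul, Matrix.transpose_mul]
    calc (Dg n lam)⁻¹ * X * X0⁻¹ * jm ℂ n * ((X0⁻¹).transpose * (X.transpose * ((Dg n lam)⁻¹).transpose))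
        = (Dg n lam)⁻¹ * (X * (X0⁻¹ * jm ℂ n * (X0⁻¹).transpose) * X.transpose) * ((Dg n lam)⁻¹).transpose := by
          simp only [Matrix.mul_assoc]
      _ = (Dg n lam)⁻¹ * (Dg n lam * jm ℂ n * (Dg n lam).transpose) * ((Dg n lam)⁻¹).transpose := by
          rw [hQ, hX1, Dg_jm]
      _ = ((Dg n lam)⁻¹ * Dg n lam) * jm ℂ n * ((Dg n lam)⁻¹ * Dg n lam).transpose := by
          rw [Matrix.transpose_mul]
          simp only [Matrix.mul_assoc]
      _ = jm ℂ n := by rw [nonsing_inv_mul _ hD, Matrix.transpose_one, one_mul, mul_one]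
  · calc X = (Dg n lam * (Dg n lam)⁻¹) * X * (X0⁻¹ * X0) := by
          rw [mul_nonsing_inv _ hD, nonsing_inv_mul _ hdet, one_mul, mul_one]
      _ = Dg n lam * ((Dg n lam)⁻¹ * X * X0⁻¹) * X0 := by simp only [Matrix.mul_assoc]

/-- the coordinates of a matrix -/
def fl {K : Type*} (X : Matrix (Fin n) (Fin n) K) : Fin n × Fin n → K := fun x => X x.1 x.2

/-- the fibre, as a set of points -/
def FF (Q : Matrix (Fin n) (Fin n) ℂ) (lam : ℂ) : Set (Fin n × Fin n → ℂ) := {y | Matrix.of (fun i j => y (i, j)) ∈ FM Q lam}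

/-- the points `D g X0`, `g` in the rational symplectic group -/
def RR (X0 : Matrix (Fin n) (Fin n) ℚ) (lam : ℂ) : Set (Fin n × Fin n → ℂ) :=
  {y | ∃ q ∈ SpS ℚ n, y = fl (Dg n lam * q.map (algebraMap ℚ ℂ) * X0.map (algebraMap ℚ ℂ))}

theorem fl_mem {Q : Matrix (Fin n) (Fin n) ℂ} {lam : ℂ} {X : Matrix (Fin n) (Fin n) ℂ} : fl X ∈ FF Q lam ↔ X ∈ FM Q lam :=
  Iff.rfl

theorem RR_sub {Q : Matrix (Fin n) (Fin n) ℂ} {X0 : Matrix (Fin n) (Fin n) ℚ}
    (hX0 : X0.map (algebraMap ℚ ℂ) * Q * (X0.map (algebraMap ℚ ℂ)).transpose = jm ℂ n) (lam : ℂ) :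
    RR X0 lam ⊆ FF Q lam := by
  rintro _ ⟨q, hq, rfl⟩
  exact Dg_mem hX0 lam (SpS_map _ hq)

theorem RR_nonempty (X0 : Matrix (Fin n) (Fin n) ℚ) (lam : ℂ) : (RR X0 lam).Nonempty := ⟨_, 1, SpS_one, rfl⟩

theorem RR_mem {X0 : Matrix (Fin n) (Fin n) ℚ} {lam : ℂ} {W : Submodule ℚ ℂ} (h1 : (1 : ℂ) ∈ W) (h2 : lam ∈ W)
    {y : Fin n × Fin n → ℂ} (hy : y ∈ RR X0 lam) (x : Fin n × Fin n) : y x ∈ W := by
  obtain ⟨q, hq, rfl⟩ := hy
  unfold fl
  have e1 : Dg n lam * q.map (algebraMap ℚ ℂ) * X0.map (algebraMap ℚ ℂ) =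
      Dg n lam * (q * X0).map (algebraMap ℚ ℂ) := by
    rw [Matrix.map_mul, Matrix.mul_assoc]
  rw [e1]
  unfold Dg
  rw [Matrix.diagonal_mul, Matrix.map_apply]
  have h3 : ∀ z ∈ W, ∀ r : ℚ, z * algebraMap ℚ ℂ r ∈ W := by
    intro z hz r
    have : z * algebraMap ℚ ℂ r = r • z := by rw [Algebra.smul_def, mul_comm]
    rw [this]
    exact W.smul_mem r hz
  split_ifs
  · exact h3 _ h2 _
  · exact h3 _ h1 _

/-- substitution of `D X X0` in a polynomial -/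
noncomputable def sbD (lam : ℂ) (X0 : Matrix (Fin n) (Fin n) ℂ) (P : MvPolynomial (Fin n × Fin n) ℂ) :
    MvPolynomial (Fin n × Fin n) ℂ :=
  MvPolynomial.aeval (fl ((Dg n lam).map MvPolynomial.C * Matrix.of (fun i j => MvPolynomial.X (i, j)) *
    X0.map MvPolynomial.C)) P

theorem sbD_eval (lam : ℂ) (X0 : Matrix (Fin n) (Fin n) ℂ) (P : MvPolynomial (Fin n × Fin n) ℂ)
    (g : Matrix (Fin n) (Fin n) ℂ) : MvPolynomial.aeval (fl g) (sbD lam X0 P) =
    MvPolynomial.aeval (fl (Dg n lam * g * X0)) P := by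
  unfold sbD
  have h1 := MvPolynomial.comp_aeval_apply (f := fl ((Dg n lam).map MvPolynomial.C *
    Matrix.of (fun i j => MvPolynomial.X (i, j)) * X0.map MvPolynomial.C))
    (MvPolynomial.aeval (fl g) : MvPolynomial (Fin n × Fin n) ℂ →ₐ[ℂ] ℂ) P
  rw [h1]
  congr 2
  funext x
  simp only [fl, Matrix.mul_apply, map_sum, map_mul, Matrix.map_apply, Matrix.of_apply, MvPolynomial.aeval_C,
    MvPolynomial.aeval_X, Algebra.algebraMap_self, RingHom.id_apply]

theorem evM_eq (P : MvPolynomial (Fin n × Fin n) ℂ) (X : Matrix (Fin n) (Fin n) ℂ) :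
    evM P X = MvPolynomial.aeval (fl X) P := by
  unfold evM
  rw [MvPolynomial.aeval_eq_eval]
  rfl

/-- density -/
theorem dense_FF (hn : Even n) {Q : Matrix (Fin n) (Fin n) ℂ} {X0 : Matrix (Fin n) (Fin n) ℚ}
    (hX0 : X0.map (algebraMap ℚ ℂ) * Q * (X0.map (algebraMap ℚ ℂ)).transpose = jm ℂ n) {lam : ℂ} (hl : lam ≠ 0)
    (P : MvPolynomial (Fin n × Fin n) ℂ) (h : ∀ y ∈ RR X0 lam, MvPolynomial.aeval y P = 0) :
    ∀ y ∈ FF Q lam, MvPolynomial.aeval y P = 0 := by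
  intro y hy
  obtain ⟨g, hg, hyg⟩ := exists_Dg hn hX0 hl hy
  have h1 := dense_rat hn (sbD lam (X0.map (algebraMap ℚ ℂ)) P) (fun q hq => by
    rw [evM_eq, sbD_eval]
    exact h _ ⟨q, hq, rfl⟩) g hg
  rw [evM_eq, sbD_eval, ← hyg] at h1
  exact h1

/-- irreducibility -/
theorem irr_FF (hn : Even n) {Q X0 : Matrix (Fin n) (Fin n) ℂ} (hX0 : X0 * Q * X0.transpose = jm ℂ n) {lam : ℂ}
    (hl : lam ≠ 0) (P P' : MvPolynomial (Fin n × Fin n) ℂ) (hP : ∃ y ∈ FF Q lam, MvPolynomial.aeval y P ≠ 0)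
    (hP' : ∃ y ∈ FF Q lam, MvPolynomial.aeval y P' ≠ 0) :
    ∃ y ∈ FF Q lam, MvPolynomial.aeval y P ≠ 0 ∧ MvPolynomial.aeval y P' ≠ 0 := by
  classical
  obtain ⟨y, hy, hyP⟩ := hP
  obtain ⟨y', hy', hyP'⟩ := hP'
  obtain ⟨g, hg, hyg⟩ := exists_Dg hn hX0 hl hy
  obtain ⟨g', hg', hyg'⟩ := exists_Dg hn hX0 hl hy'
  have e1 : y = fl (Dg n lam * g * X0) := by rw [← hyg]; rfl
  have e2 : y' = fl (Dg n lam * g' * X0) := by rw [← hyg']; rfl
  obtain ⟨G, hG0, hG1, hGS⟩ := exists_path hn _ (SpS_mul hg' (SpS_inv hn hg).1)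
  set A : Matrix (Fin n) (Fin n) ℂ[X] := (Dg n lam).map C * (G * g.map C) * X0.map C with hA
  have hev : ∀ (R : MvPolynomial (Fin n × Fin n) ℂ) (s : ℂ), (MvPolynomial.aeval (fl A) R : ℂ[X]).eval s =
      MvPolynomial.aeval (fl (Dg n lam * (G.map (Polynomial.eval s) * g) * X0)) R := by
    intro R s
    have h1 := MvPolynomial.comp_aeval_apply (f := fl A) (Polynomial.aeval s : ℂ[X] →ₐ[ℂ] ℂ) R
    rw [Polynomial.coe_aeval_eq_eval] at h1
    rw [h1]
    congr 2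
    funext x
    simp only [fl, hA, Matrix.mul_apply, Polynomial.eval_finsetSum, Polynomial.eval_mul, Matrix.map_apply,
      Polynomial.eval_C]
  have h0 : (MvPolynomial.aeval (fl A) P : ℂ[X]) ≠ 0 := by
    intro h0
    apply hyP
    have h1 := hev P 0
    rw [h0, eval_zero, hG0, one_mul, ← e1] at h1
    exact h1.symm
  have h0' : (MvPolynomial.aeval (fl A) P' : ℂ[X]) ≠ 0 := by
    intro h0
    apply hyP'
    have h1 := hev P' 1
    rw [h0, eval_zero, hG1, Matrix.mul_assoc g' g⁻¹ g, (SpS_inv hn hg).2, mul_one, ← e2] at h1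
    exact h1.symm
  obtain ⟨s, hs⟩ : ∃ s : ℂ, ((MvPolynomial.aeval (fl A) P : ℂ[X]) * (MvPolynomial.aeval (fl A) P' : ℂ[X])).eval s ≠ 0 := by
    by_contra hall
    push Not at hall
    exact mul_ne_zero h0 h0' (Polynomial.funext fun s => by rw [hall s, eval_zero])
  rw [eval_mul, hev, hev] at hs
  refine ⟨fl (Dg n lam * (G.map (Polynomial.eval s) * g) * X0), ?_, left_ne_zero_of_mul hs, right_ne_zero_of_mul hs⟩
  rw [fl_mem]
  exact Dg_mem hX0 lam (SpS_mul (hGS s) hg)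

theorem FF_nonempty {Q : Matrix (Fin n) (Fin n) ℂ} {X0 : Matrix (Fin n) (Fin n) ℚ}
    (hX0 : X0.map (algebraMap ℚ ℂ) * Q * (X0.map (algebraMap ℚ ℂ)).transpose = jm ℂ n) (lam : ℂ) :
    (FF Q lam).Nonempty := (RR_nonempty X0 lam).mono (RR_sub hX0 lam)

end Pool.Agent.L5helper73.Inf
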