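import Pool.Agent.Y118.HG.Kver

/-!
# From integral coefficients to coefficients in number fields, on any irreducible set
-/

set_option autoImplicit false

open Polynomial NumberField

namespace Pool.Agent.L5helper73.Inf

open Pool.Agent.Y118.HP Pool.Agent.Y118.HG

variable {σ : Type}

/-- evaluation after `optionEquivLeft` -/
theorem eval_opt (z : σ → ℂ) (τ : ℂ) (M : MvPolynomial (Option σ) ℤ) :
    ((MvPolynomial.optionEquivLeft ℤ σ M).map (MvPolynomial.aeval z : MvPolynomial σ ℤ →ₐ[ℤ] ℂ).toRingHom).eval τ =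
      MvPolynomial.aeval (fun o : Option σ => o.elim τ z) M := by
  induction M using MvPolynomial.induction_on with
  | C a =>
    rw [MvPolynomial.optionEquivLeft_C, Polynomial.map_C, Polynomial.eval_C, MvPolynomial.aeval_C]
    show MvPolynomial.aeval z (MvPolynomial.C a) = _
    rw [MvPolynomial.aeval_C]
  | add P Q hP hQ => rw [map_add, Polynomial.map_add, Polynomial.eval_add, hP, hQ, map_add]
  | mul_X P o hP =>
    rw [map_mul, Polynomial.map_mul, Polynomial.eval_mul, hP, map_mul, MvPolynomial.aeval_X]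
    congr 1
    rcases o with _ | x
    · rw [MvPolynomial.optionEquivLeft_X_none, Polynomial.map_X, Polynomial.eval_X]
      rfl
    · rw [MvPolynomial.optionEquivLeft_X_some, Polynomial.map_C, Polynomial.eval_C]
      show MvPolynomial.aeval z (MvPolynomial.X x) = _
      rw [MvPolynomial.aeval_X]
      rfl

/-- the coefficient of a product of linear factors -/
theorem coeff_prod {ι : Type} [Fintype ι] [DecidableEq ι] (A : Finset ι) (v : ι → ℂ) (hv : ∀ i ∈ A, v i = 0) :
    (∏ i, ((X : ℂ[X]) - C (v i))).coeff A.card = ∏ i ∈ Finset.univ \ A, -(v i) := by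
  have h1 : (∏ i, ((X : ℂ[X]) - C (v i))) = X ^ A.card * ∏ i ∈ Finset.univ \ A, ((X : ℂ[X]) - C (v i)) := by
    rw [← Finset.prod_sdiff (Finset.subset_univ A), mul_comm]
    congr 1
    rw [← Finset.prod_const]
    refine Finset.prod_congr rfl fun i hi => ?_
    rw [hv i hi, map_zero, sub_zero]
  have h2 := Polynomial.coeff_X_pow_mul (∏ i ∈ Finset.univ \ A, ((X : ℂ[X]) - C (v i))) A.card 0
  rw [zero_add] at h2
  rw [h1, h2, Polynomial.coeff_zero_eq_eval_zero, Polynomial.eval_prod]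
  refine Finset.prod_congr rfl fun i _ => ?_
  simp

set_option maxHeartbeats 1000000 in
/-- number fields: if the integral relations of degree `≤ e` of the point `p` of the irreducible set `S` hold on `S`,
then so do the relations over a number field `K` of degree `d` with `[K : ℚ] max(1, d) ≤ e` -/
theorem numfield (S : Set (σ → ℂ))
    (hirr : ∀ (ψ : Type) (T : Finset ψ) (P : ψ → MvPolynomial σ ℂ),
      (∀ i ∈ T, ∃ Y ∈ S, MvPolynomial.aeval Y (P i) ≠ 0) → ∃ Y ∈ S, ∀ i ∈ T, MvPolynomial.aeval Y (P i) ≠ 0)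
    {p : σ → ℂ} (hp : p ∈ S) (e : ℕ)
    (hQ : ∀ M : MvPolynomial σ ℤ, M.totalDegree ≤ e → MvPolynomial.aeval p M = 0 →
      ∀ Y ∈ S, MvPolynomial.aeval Y M = 0)
    (K : Type) [Field K] [NumberField K] (φ : K →+* ℂ) (P : MvPolynomial σ K)
    (hD : Module.finrank ℚ K * max 1 P.totalDegree ≤ e) (h0 : MvPolynomial.aeval p (P.map φ) = 0) :
    ∀ Y ∈ S, MvPolynomial.aeval Y (P.map φ) = 0 := by
  classical
  obtain ⟨q, P', hq0, hP'd, hP'⟩ := exists_integral P
  set Pe : (K →+* ℂ) → MvPolynomial σ ℂ := fun ψ => P'.map (ψ.comp (algebraMap (𝓞 K) K)) with hPe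
  have hPeq : ∀ ψ : K →+* ℂ, Pe ψ = MvPolynomial.C (ψ q) * P.map ψ := by
    intro ψ
    rw [hPe]
    simp only
    rw [← MvPolynomial.map_map, hP', map_mul, MvPolynomial.map_C]
  set R : MvPolynomial (Option σ) (𝓞 K) := MvPolynomial.X none - MvPolynomial.rename some P' with hR
  obtain ⟨M0, hM0⟩ := exists_norm K R
  have hRd : R.totalDegree ≤ max 1 P.totalDegree := by
    refine (MvPolynomial.totalDegree_sub _ _).trans (max_le_max ?_ ?_)
    · rw [MvPolynomial.totalDegree_X]
    · exact (MvPolynomial.totalDegree_rename_le _ _).trans hP'd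
  have hM0d : M0.totalDegree ≤ e := by
    rw [← totalDegree_map_inj (φ := Int.castRingHom ℂ) (by exact Int.cast_injective) M0, hM0]
    refine (MvPolynomial.totalDegree_finsetProd _ _).trans ?_
    refine (Finset.sum_le_sum fun ψ _ => (totalDegree_map_le _ R).trans hRd).trans ?_
    rw [Finset.sum_const, Finset.card_univ, smul_eq_mul, NumberField.Embeddings.card]
    exact hD
  have hkey : ∀ z : σ → ℂ, (MvPolynomial.optionEquivLeft ℤ σ M0).map
      (MvPolynomial.aeval z : MvPolynomial σ ℤ →ₐ[ℤ] ℂ).toRingHom =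
      ∏ ψ : K →+* ℂ, ((X : ℂ[X]) - C (MvPolynomial.aeval z (Pe ψ))) := by
    intro z
    refine Polynomial.funext fun τ => ?_
    rw [eval_opt, aeval_int_map, hM0, map_prod, Polynomial.eval_prod]
    refine Finset.prod_congr rfl fun ψ _ => ?_
    rw [Polynomial.eval_sub, Polynomial.eval_X, Polynomial.eval_C, hR, map_sub, map_sub, MvPolynomial.map_X,
      MvPolynomial.aeval_X, MvPolynomial.map_rename, MvPolynomial.aeval_rename]
    rfl
  have hcoef : ∀ (z : σ → ℂ) (i : ℕ), (∏ ψ : K →+* ℂ, ((X : ℂ[X]) - C (MvPolynomial.aeval z (Pe ψ)))).coeff i =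
      MvPolynomial.aeval z ((MvPolynomial.optionEquivLeft ℤ σ M0).coeff i) := by
    intro z i
    rw [← hkey, Polynomial.coeff_map]
    rfl
  set A : Finset (K →+* ℂ) := Finset.univ.filter fun ψ => ∀ Y ∈ S, MvPolynomial.aeval Y (Pe ψ) = 0 with hA
  have hA1 : ∀ ψ ∈ A, ∀ Y ∈ S, MvPolynomial.aeval Y (Pe ψ) = 0 := fun ψ hψ => (Finset.mem_filter.1 hψ).2
  have hφA : φ ∈ A := by
    by_contra hcon
    obtain ⟨Y, hY, hYT⟩ := hirr (K →+* ℂ) (Finset.univ \ A) Pe (fun ψ hψ => by
      have h1 := (Finset.mem_sdiff.1 hψ).2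
      by_contra hc
      push Not at hc
      exact h1 (Finset.mem_filter.2 ⟨Finset.mem_univ _, hc⟩))
    have h1 := coeff_prod A (fun ψ => MvPolynomial.aeval p (Pe ψ)) fun ψ hψ => hA1 ψ hψ p hp
    have h2 := coeff_prod A (fun ψ => MvPolynomial.aeval Y (Pe ψ)) fun ψ hψ => hA1 ψ hψ Y hY
    rw [hcoef] at h1 h2
    have h3 : ∏ ψ ∈ Finset.univ \ A, -(MvPolynomial.aeval p (Pe ψ)) = 0 := by
      refine Finset.prod_eq_zero (Finset.mem_sdiff.2 ⟨Finset.mem_univ φ, hcon⟩) ?_
      rw [hPeq, map_mul, h0, mul_zero, neg_zero]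
    rw [h3] at h1
    have h4 := hQ _ ((MvPolynomial.totalDegree_coeff_optionEquivLeft_le ℤ σ M0 _).trans hM0d) h1 Y hY
    rw [h4] at h2
    exact Finset.prod_ne_zero_iff.2 (fun ψ hψ => neg_ne_zero.2 (hYT ψ hψ)) h2.symm
  intro Y hY
  have h1 := hA1 φ hφA Y hY
  rw [hPeq, map_mul] at h1
  refine (mul_eq_zero.1 h1).resolve_left ?_
  simp only [MvPolynomial.aeval_C, Algebra.algebraMap_self, RingHom.id_apply]
  exact (map_ne_zero φ).2 hq0

end Pool.Agent.L5helper73.Inf
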