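import Pool.Agent.L5helper73.Inf.B
import Pool.Agent.L5helper73.Inf.C

/-!
# Infinitely many hyperelliptic curves: the exceptional sets
-/

set_option autoImplicit false

open Matrix Polynomial NumberField

namespace Pool.Agent.L5helper73.Inf

open Pool.Agent.Y118.HP Pool.Agent.Y118.HG Pool.Agent.Y113

variable {n : ℕ → ℕ}

/-- the known numbers: `2πi`, the first `e` constants, the periods of the first `k` curves -/
def Kn (a : ∀ j, Fin (n j) → ℝ) (m : ∀ j, Fin (n j + 1)) (c : ℕ → ℂ) (t : ℕ → ℕ) (e k : ℕ) : Set ℂ :=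
  {z | z = 2 * Real.pi * Complex.I ∨ (∃ i < e, z = c i) ∨
    ∃ i < k, ∃ l l' : Fin (n i), z = cper (er (a i) (m i) (1 / (t i : ℝ))) l l'}

/-- the space spanned by `1` and the known numbers -/
noncomputable def Wk (a : ∀ j, Fin (n j) → ℝ) (m : ∀ j, Fin (n j + 1)) (c : ℕ → ℂ) (t : ℕ → ℕ) (e k : ℕ) :
    Submodule ℚ ℂ := Submodule.span ℚ (insert 1 (Kn a m c t e k))

abbrev Kidx (n : ℕ → ℕ) (e k : ℕ) : Type := Option (Option (Fin e ⊕ Σ i : Fin k, Fin (n i) × Fin (n i)))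

noncomputable def kfun (a : ∀ j, Fin (n j) → ℝ) (m : ∀ j, Fin (n j + 1)) (c : ℕ → ℂ) (t : ℕ → ℕ) (e k : ℕ) :
    Kidx n e k → ℂ := fun o => o.elim 1 fun o' => o'.elim (2 * Real.pi * Complex.I) (Sum.elim (fun i => c i)
      fun x => cper (er (a x.1) (m x.1) (1 / (t x.1 : ℝ))) x.2.1 x.2.2)

theorem kfun_range (a : ∀ j, Fin (n j) → ℝ) (m : ∀ j, Fin (n j + 1)) (c : ℕ → ℂ) (t : ℕ → ℕ) (e k : ℕ) :
    insert 1 (Kn a m c t e k) = Set.range (kfun a m c t e k) := by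
  ext z
  rw [Set.mem_insert_iff]
  constructor
  · rintro (h | h | ⟨i, hi, h⟩ | ⟨i, hi, l, l', h⟩)
    · exact ⟨none, h.symm⟩
    · exact ⟨some none, h.symm⟩
    · exact ⟨some (some (Sum.inl ⟨i, hi⟩)), h.symm⟩
    · exact ⟨some (some (Sum.inr ⟨⟨i, hi⟩, l, l'⟩)), h.symm⟩
  · rintro ⟨o, rfl⟩
    rcases o with _ | _ | i | ⟨i, l, l'⟩
    · exact Or.inl rfl
    · exact Or.inr (Or.inl rfl)
    · exact Or.inr (Or.inr (Or.inl ⟨i, i.2, rfl⟩))
    · exact Or.inr (Or.inr (Or.inr ⟨i, i.2, l, l', rfl⟩))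

theorem Wk_fin (a : ∀ j, Fin (n j) → ℝ) (m : ∀ j, Fin (n j + 1)) (c : ℕ → ℂ) (t : ℕ → ℕ) (e k : ℕ) :
    Module.Finite ℚ (Wk a m c t e k) ∧ Module.finrank ℚ (Wk a m c t e k) ≤ Fintype.card (Kidx n e k) := by
  unfold Wk
  rw [kfun_range]
  exact ⟨Module.Finite.span_of_finite ℚ (Set.finite_range _), finrank_range_le_card _⟩

theorem Kn_mono (a : ∀ j, Fin (n j) → ℝ) (m : ∀ j, Fin (n j + 1)) (c : ℕ → ℂ) (t : ℕ → ℕ) {e e' k k' : ℕ}
    (he : e ≤ e') (hk : k ≤ k') : Kn a m c t e k ⊆ Kn a m c t e' k' := by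
  rintro z (h | ⟨i, hi, h⟩ | ⟨i, hi, l, l', h⟩)
  · exact Or.inl h
  · exact Or.inr (Or.inl ⟨i, by omega, h⟩)
  · exact Or.inr (Or.inr ⟨i, by omega, l, l', h⟩)

theorem Wk_mono (a : ∀ j, Fin (n j) → ℝ) (m : ∀ j, Fin (n j + 1)) (c : ℕ → ℂ) (t : ℕ → ℕ) {e e' k k' : ℕ}
    (he : e ≤ e') (hk : k ≤ k') : Wk a m c t e k ≤ Wk a m c t e' k' :=
  Submodule.span_mono (Set.insert_subset_insert (Kn_mono a m c t he hk))

theorem Wk_congr (a : ∀ j, Fin (n j) → ℝ) (m : ∀ j, Fin (n j + 1)) (c : ℕ → ℂ) {t t' : ℕ → ℕ} {e k : ℕ}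
    (h : ∀ i < k, t i = t' i) : Wk a m c t e k = Wk a m c t' e k := by
  unfold Wk
  congr 2
  ext z
  unfold Kn
  simp only [Set.mem_ofPred_eq]
  refine or_congr_right (or_congr_right ?_)
  constructor
  · rintro ⟨i, hi, l, l', hz⟩
    exact ⟨i, hi, l, l', by rw [← h i hi]; exact hz⟩
  · rintro ⟨i, hi, l, l', hz⟩
    exact ⟨i, hi, l, l', by rw [h i hi]; exact hz⟩

/-- the polarisation at the parameter `t` -/
noncomputable def Qt {n : ℕ} (f : ℚ[X]) (t : ℕ) : Matrix (Fin n) (Fin n) ℂ :=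
  (-1 / 2 : ℂ) • (Qp n f).map (aeval ((1 / (t : ℚ) : ℚ) : ℂ))

/-- the good parameters, for the space `W` -/
def GoodAt {n : ℕ} (a : Fin n → ℝ) (m : Fin (n + 1)) (f : ℚ[X]) (W : Submodule ℚ ℂ) (δ τ : ℕ) : Prop :=
  InGap a m (1 / (τ : ℝ)) ∧ ∀ Q : MvPolynomial (Fin n × Fin n) ℂ, DC δ (W ^ δ) Q →
    MvPolynomial.aeval (fl (CM a m (1 / (τ : ℝ)))) Q = 0 →
    ∀ y ∈ FF (Qt (n := n) f τ) (2 * Real.pi * Complex.I), MvPolynomial.aeval y Q = 0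

/-- one family: the bad parameters -/
theorem one_family {n : ℕ} (hn : Even n) (a : Fin n → ℝ) (ha : StrictMono a) (m : Fin (n + 1)) (f : ℚ[X])
    (h0 : InGap a m 0) (hf : f.map (algebraMap ℚ ℝ) = ∏ i, (X - C (a i))) (w δ : ℕ) :
    ∃ γ M : ℝ, 0 < γ ∧ ∀ W : Submodule ℚ ℂ, Module.Finite ℚ W → Module.finrank ℚ W ≤ w → ∀ T : ℕ, 1 ≤ T →
      (({τ : ℕ | ¬ GoodAt a m f W δ τ} ∩ Set.Icc 1 T).ncard : ℝ) ≤ M * (T : ℝ) ^ (1 - γ) := by
  classical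
  obtain ⟨c, hc, M, -, hmain⟩ := vver (N := 1) hn (fun _ => a) (fun _ => ha) (fun _ => m) (fun _ => f) (fun _ => h0)
    (fun _ => hf) (w ^ δ) δ
  refine ⟨c, M, hc, fun W hW hWw T hT => ?_⟩
  obtain ⟨h1, h2⟩ := finrank_pow_le W δ
  obtain ⟨S, hS1, hS2⟩ := hmain (W ^ δ) h1 (h2.trans (Nat.pow_le_pow_left hWw δ)) T hT
  have hsub : {τ : ℕ | ¬ GoodAt a m f W δ τ} ∩ Set.Icc 1 T ⊆ ((S.image fun t => t 0 : Finset ℕ) : Set ℕ) := by
    rintro τ ⟨hτ1, hτ2⟩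
    rw [Finset.coe_image]
    by_contra hcon
    apply hτ1
    have hnot : (fun _ : Fin 1 => τ) ∉ S := fun h => hcon ⟨_, h, rfl⟩
    obtain ⟨hgap, hP⟩ := hS2 (fun _ => τ) (fun _ => hτ2) hnot
    have hcast : (((1 / (τ : ℚ) : ℚ)) : ℝ) = 1 / (τ : ℝ) := by push_cast; rfl
    refine ⟨by rw [← hcast]; exact hgap 0, fun Q hQ hQ0 y hy => ?_⟩
    have hv : ∀ X : Matrix (Fin n) (Fin n) ℂ, MvPolynomial.aeval (px fun _ : Fin 1 => X)
        (MvPolynomial.rename (fun x : Fin n × Fin n => ((0 : Fin 1), x)) Q) = MvPolynomial.aeval (fl X) Q := by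
      intro X
      rw [MvPolynomial.aeval_rename]
      rfl
    have h3 := hP (MvPolynomial.rename (fun x : Fin n × Fin n => ((0 : Fin 1), x)) Q)
      ((MvPolynomial.totalDegree_rename_le _ _).trans hQ.1) (fun s => by
        by_cases hs : MvPolynomial.coeff s (MvPolynomial.rename (fun x : Fin n × Fin n => ((0 : Fin 1), x)) Q) = 0
        · rw [hs]
          exact Submodule.zero_mem _
        · obtain ⟨u, hu, -⟩ := MvPolynomial.coeff_rename_ne_zero _ _ _ hs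
          rw [← hu, MvPolynomial.coeff_rename_mapDomain _ (fun x y hxy => (Prod.mk.inj hxy).2)]
          exact hQ.2 u)
      (by
        rw [hv, hcast]
        exact hQ0)
      (fun _ => Matrix.of fun i j => y (i, j)) (fun _ => hy)
    rw [hv] at h3
    exact h3
  have h3 := Set.ncard_le_ncard hsub (Finset.finite_toSet _)
  rw [Set.ncard_coe_finset] at h3
  have h4 : (((S.image fun t => t 0 : Finset ℕ)).card : ℝ) ≤ (S.card : ℝ) := by exact_mod_cast Finset.card_image_le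
  calc (({τ : ℕ | ¬ GoodAt a m f W δ τ} ∩ Set.Icc 1 T).ncard : ℝ) ≤ ((S.image fun t => t 0 : Finset ℕ)).card := by
        exact_mod_cast h3
    _ ≤ (S.card : ℝ) := h4
    _ ≤ M * (T : ℝ) ^ (((1 : ℕ) : ℝ) - c) := hS1
    _ = M * (T : ℝ) ^ (1 - c) := by rw [Nat.cast_one]

end Pool.Agent.L5helper73.Inf
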