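import Pool.Agent.L5helper73.Inf.D

/-!
# Infinitely many hyperelliptic curves: the relations
-/

set_option autoImplicit false

open Matrix Polynomial NumberField

namespace Pool.Agent.L5helper73.Inf

open Pool.Agent.Y118.HP Pool.Agent.Y118.HG Pool.Agent.Y113

variable {n : ℕ → ℕ}

/-- the index type of the periods of the curves in `J` -/
abbrev IJ (n : ℕ → ℕ) (J : Set ℕ) : Type := Σ j : J, Fin (n j) × Fin (n j)

/-- the inclusion of the indices -/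
def io (n : ℕ → ℕ) (J : Set ℕ) (x : IJ n J) : Σ j : ℕ, Fin (n j) × Fin (n j) := ⟨x.1, x.2⟩

open Classical in
/-- the fibres -/
noncomputable def Fs (J : Set ℕ) (Q : ∀ j, Matrix (Fin (n j)) (Fin (n j)) ℂ) (lam : ℂ) (j : ℕ) :
    Set (Fin (n j) × Fin (n j) → ℂ) := if j ∈ J then FF (Q j) lam else {0}

open Classical in
/-- the points with coordinates in `ℚ + ℚ lam` -/
noncomputable def Rs (J : Set ℕ) (X0 : ∀ j, Matrix (Fin (n j)) (Fin (n j)) ℚ) (lam : ℂ) (j : ℕ) :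
    Set (Fin (n j) × Fin (n j) → ℂ) := if j ∈ J then RR (X0 j) lam else {0}

section abs

variable {J : Set ℕ} {Q : ∀ j, Matrix (Fin (n j)) (Fin (n j)) ℂ} {X0 : ∀ j, Matrix (Fin (n j)) (Fin (n j)) ℚ}

theorem Rs_sub (hX0 : ∀ j ∈ J, (X0 j).map (algebraMap ℚ ℂ) * Q j * ((X0 j).map (algebraMap ℚ ℂ)).transpose = jm ℂ (n j))
    (lam : ℂ) (j : ℕ) : Rs J X0 lam j ⊆ Fs J Q lam j := by
  unfold Rs Fs
  split_ifs with h
  · exact RR_sub (hX0 j h) lam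
  · exact subset_rfl

theorem Rs_ne (lam : ℂ) (j : ℕ) : (Rs J X0 lam j).Nonempty := by
  unfold Rs
  split_ifs with h
  · exact RR_nonempty _ _
  · exact Set.singleton_nonempty _

theorem Rs_mem {lam : ℂ} {W : Submodule ℚ ℂ} (h1 : (1 : ℂ) ∈ W) (h2 : lam ∈ W) {j : ℕ}
    {y : Fin (n j) × Fin (n j) → ℂ} (hy : y ∈ Rs J X0 lam j) (i : Fin (n j) × Fin (n j)) : y i ∈ W := by
  unfold Rs at hy
  split_ifs at hy with h
  · exact RR_mem h1 h2 hy i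
  · rw [Set.mem_singleton_iff] at hy
    rw [hy]
    exact W.zero_mem

theorem Fs_dense (hn : ∀ j, Even (n j))
    (hX0 : ∀ j ∈ J, (X0 j).map (algebraMap ℚ ℂ) * Q j * ((X0 j).map (algebraMap ℚ ℂ)).transpose = jm ℂ (n j))
    {lam : ℂ} (hl : lam ≠ 0) (j : ℕ) (P : MvPolynomial (Fin (n j) × Fin (n j)) ℂ)
    (h : ∀ y ∈ Rs J X0 lam j, MvPolynomial.aeval y P = 0) : ∀ y ∈ Fs J Q lam j, MvPolynomial.aeval y P = 0 := by
  unfold Rs at h
  unfold Fs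
  split_ifs at h ⊢ with hj
  · exact dense_FF (hn j) (hX0 j hj) hl P h
  · exact h

theorem Fs_irr (hn : ∀ j, Even (n j))
    (hX0 : ∀ j ∈ J, (X0 j).map (algebraMap ℚ ℂ) * Q j * ((X0 j).map (algebraMap ℚ ℂ)).transpose = jm ℂ (n j))
    {lam : ℂ} (hl : lam ≠ 0) (j : ℕ) (P P' : MvPolynomial (Fin (n j) × Fin (n j)) ℂ)
    (hP : ∃ y ∈ Fs J Q lam j, MvPolynomial.aeval y P ≠ 0) (hP' : ∃ y ∈ Fs J Q lam j, MvPolynomial.aeval y P' ≠ 0) :
    ∃ y ∈ Fs J Q lam j, MvPolynomial.aeval y P ≠ 0 ∧ MvPolynomial.aeval y P' ≠ 0 := by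
  unfold Fs at hP hP' ⊢
  split_ifs at hP hP' ⊢ with hj
  · exact irr_FF (hn j) (hX0 j hj) hl P P' hP hP'
  · obtain ⟨y, hy, h1⟩ := hP
    obtain ⟨y', hy', h2⟩ := hP'
    rw [Set.mem_singleton_iff] at hy hy'
    subst hy
    subst hy'
    exact ⟨_, rfl, h1, h2⟩

end abs

/-- the substitution of the known numbers -/
noncomputable def Ls (n : ℕ → ℕ) (κ : Set ℂ) (J : Set ℕ) : κ ⊕ IJ n J → MvPolynomial (Σ j, Fin (n j) × Fin (n j)) ℂ :=
  Sum.elim (fun z => MvPolynomial.C (z : ℂ)) (fun x => MvPolynomial.X (io n J x))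

theorem Ls_eval (κ : Set ℂ) (J : Set ℕ) (P : MvPolynomial (κ ⊕ IJ n J) ℂ) (Y : (Σ j, Fin (n j) × Fin (n j)) → ℂ) :
    MvPolynomial.aeval Y (MvPolynomial.aeval (Ls n κ J) P) =
      MvPolynomial.aeval (Sum.elim (fun z : κ => (z : ℂ)) (Y ∘ io n J)) P := by
  have h1 := MvPolynomial.comp_aeval_apply (f := Ls n κ J)
    (MvPolynomial.aeval Y : MvPolynomial (Σ j, Fin (n j) × Fin (n j)) ℂ →ₐ[ℂ] ℂ) P
  rw [h1]
  congr 2
  funext o
  rcases o with z | x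
  · simp [Ls]
  · simp [Ls]

theorem Ls_vars (κ : Set ℂ) (J : Set ℕ) (P : MvPolynomial (κ ⊕ IJ n J) ℂ) :
    ∀ x ∈ (MvPolynomial.aeval (Ls n κ J) P).vars, x.1 ∈ J := by
  classical
  have h1 : MvPolynomial.aeval (Ls n κ J) P = MvPolynomial.rename (io n J)
      (MvPolynomial.aeval (Sum.elim (fun z : κ => MvPolynomial.C (z : ℂ)) (fun x => MvPolynomial.X x) :
        κ ⊕ IJ n J → MvPolynomial (IJ n J) ℂ) P) := by
    have h2 := MvPolynomial.comp_aeval_apply (f := (Sum.elim (fun z : κ => MvPolynomial.C (z : ℂ))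
      (fun x => MvPolynomial.X x) : κ ⊕ IJ n J → MvPolynomial (IJ n J) ℂ))
      (MvPolynomial.rename (io n J) : MvPolynomial (IJ n J) ℂ →ₐ[ℂ] MvPolynomial (Σ j, Fin (n j) × Fin (n j)) ℂ) P
    rw [h2]
    congr 2
    funext o
    rcases o with z | x
    · simp [Ls]
    · simp [Ls]
  intro x hx
  rw [h1] at hx
  have h2 := MvPolynomial.vars_rename (io n J) _ hx
  obtain ⟨y, -, rfl⟩ := Finset.mem_image.1 h2
  exact y.1.2

theorem two_pi_I_ne : (2 * Real.pi * Complex.I : ℂ) ≠ 0 := by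
  have h2 : (Real.pi : ℂ) ≠ 0 := by exact_mod_cast Real.pi_ne_zero
  exact mul_ne_zero (mul_ne_zero two_ne_zero h2) Complex.I_ne_zero

theorem transc_two_pi_I : Transcendental ℚ (2 * Real.pi * Complex.I : ℂ) := by
  obtain ⟨μ, hμ⟩ := IsAlgClosed.exists_pow_nat_eq (2 * Real.pi * Complex.I : ℂ) (by norm_num : 0 < 2)
  rw [← hμ]
  exact (transc hμ).pow (by norm_num)

section main

variable {a : ∀ j, Fin (n j) → ℝ} {m : ∀ j, Fin (n j + 1)} {f : ℕ → ℚ[X]} {c : ℕ → ℂ} {t : ℕ → ℕ} {J : Set ℕ}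
  {X0 : ∀ j, Matrix (Fin (n j)) (Fin (n j)) ℚ} {δ Φ : ℕ → ℕ}

open Classical in
/-- the periods -/
noncomputable def ps (a : ∀ j, Fin (n j) → ℝ) (m : ∀ j, Fin (n j + 1)) (t : ℕ → ℕ) (J : Set ℕ)
    (x : Σ j, Fin (n j) × Fin (n j)) : ℂ := if x.1 ∈ J then CM (a x.1) (m x.1) (1 / (t x.1 : ℝ)) x.2.1 x.2.2 else 0

theorem ps_mem (hn : ∀ j, Even (n j)) (ha : ∀ j, StrictMono (a j))
    (hf : ∀ j, (f j).map (algebraMap ℚ ℝ) = ∏ i, (X - C (a j i)))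
    (hJ : ∀ j ∈ J, InGap (a j) (m j) (1 / (t j : ℝ))) (j : ℕ) :
    (fun i => ps a m t J ⟨j, i⟩) ∈ Fs J (fun j => Qt (n := n j) (f j) (t j)) (2 * Real.pi * Complex.I) j := by
  unfold Fs ps
  by_cases h : j ∈ J
  · rw [if_pos h]
    simp only [if_pos h]
    have hcast : (((1 / (t j : ℚ) : ℚ)) : ℝ) = 1 / (t j : ℝ) := by push_cast; rfl
    have h1 := hJ j h
    rw [← hcast] at h1
    have h2 := CM_mem (hn j) (ha j) (hf j) h1
    rw [← hcast]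
    exact h2
  · rw [if_neg h]
    simp only [if_neg h]
    rfl

/-- relations with integral coefficients -/
theorem relZ (hn : ∀ j, Even (n j))
    (hX0 : ∀ j ∈ J, (X0 j).map (algebraMap ℚ ℂ) * Qt (n := n j) (f j) (t j) * ((X0 j).map (algebraMap ℚ ℂ)).transpose =
      jm ℂ (n j)) (hΦ : Monotone Φ)
    (hJ : ∀ j ∈ J, GoodAt (a j) (m j) (f j) (Wk a m c t (Φ j) j) (δ j) (t j)) {k d e : ℕ} (hk : ∀ j ∈ J, k ≤ j)
    (hd : ∀ j ∈ J, 2 * d ≤ δ j) (he : e ≤ Φ k) (M : MvPolynomial (Kn a m c t e k ⊕ IJ n J) ℤ)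
    (hM : M.totalDegree ≤ d)
    (h0 : MvPolynomial.aeval (Sum.elim (fun z : Kn a m c t e k => (z : ℂ)) (ps a m t J ∘ io n J)) M = 0)
    (Y : (Σ j, Fin (n j) × Fin (n j)) → ℂ)
    (hY : ∀ j, (fun i => Y ⟨j, i⟩) ∈ Fs J (fun j => Qt (n := n j) (f j) (t j)) (2 * Real.pi * Complex.I) j) :
    MvPolynomial.aeval (Sum.elim (fun z : Kn a m c t e k => (z : ℂ)) (Y ∘ io n J)) M = 0 := by
  classical
  rw [aeval_int_map, ← Ls_eval] at h0 ⊢
  set W : ℕ → Submodule ℚ ℂ := fun j => Wk a m c t (Φ j) j with hW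
  have hW1 : ∀ j, (1 : ℂ) ∈ W j := fun j => Submodule.subset_span (Set.mem_insert _ _)
  have hWK : ∀ j, ∀ z ∈ Kn a m c t (Φ j) j, z ∈ W j := fun j z hz => Submodule.subset_span (Set.mem_insert_of_mem _ hz)
  have hWl : ∀ j, (2 * Real.pi * Complex.I : ℂ) ∈ W j := fun j => hWK j _ (Or.inl rfl)
  have hWm : Monotone W := fun i j hij => Wk_mono a m c t (hΦ hij) hij
  have hDM : DC d (1 : Submodule ℚ ℂ) (M.map (Int.castRingHom ℂ)) := by
    refine ⟨(totalDegree_map_le _ M).trans hM, fun s => ?_⟩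
    rw [MvPolynomial.coeff_map, Submodule.mem_one]
    exact ⟨((M.coeff s : ℤ) : ℚ), by simp⟩
  have hDP := DC_subst (hW1 k) (Ls n (Kn a m c t e k) J) (fun o => by
    rcases o with z | x
    · exact DC_C (hWK k _ (Kn_mono a m c t he le_rfl z.2))
    · exact DC_X (hW1 k) _) hDM
  rw [one_mul] at hDP
  refine step2 (F := Fs J (fun j => Qt (n := n j) (f j) (t j)) (2 * Real.pi * Complex.I))
    (R := Rs J X0 (2 * Real.pi * Complex.I)) (fun j => Rs_ne _ j)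
    (fun j => Fs_dense hn hX0 two_pi_I_ne j) (fun Y hY => ?_) hY
  refine step1 (p := ps a m t J) (F := Fs J (fun j => Qt (n := n j) (f j) (t j)) (2 * Real.pi * Complex.I))
    (R := Rs J X0 (2 * Real.pi * Complex.I)) (W := W) (δ := δ) (J := J) (k := k) (d := d)
    (fun j => Rs_sub hX0 _ j) (fun j k y hy i => Rs_mem (hW1 k) (hWl k) hy i) hW1 hWm ?_ ?_ (fun j hj _ => hd j hj) hDP
    (fun x hx => ?_) h0 hY
  · intro j k hjk i
    unfold ps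
    simp only
    split_ifs
    · exact hWK k _ (Or.inr (Or.inr ⟨j, hjk, i.1, i.2, rfl⟩))
    · exact Submodule.zero_mem _
  · intro j hj Q hQ hQ0
    have h1 := (hJ j hj).2 Q hQ (by
      rw [← hQ0]
      congr 2
      funext i
      unfold ps fl
      simp only
      rw [if_pos hj])
    unfold Fs
    rw [if_pos hj]
    exact h1
  · have h1 := Ls_vars (Kn a m c t e k) J _ x hx
    exact ⟨h1, hk _ h1⟩

/-- relations over number fields, relative to the known numbers -/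
theorem relK (hn : ∀ j, Even (n j)) (ha : ∀ j, StrictMono (a j))
    (hf : ∀ j, (f j).map (algebraMap ℚ ℝ) = ∏ i, (X - C (a j i)))
    (hX0 : ∀ j ∈ J, (X0 j).map (algebraMap ℚ ℂ) * Qt (n := n j) (f j) (t j) * ((X0 j).map (algebraMap ℚ ℂ)).transpose =
      jm ℂ (n j)) (hΦ : Monotone Φ)
    (hJ : ∀ j ∈ J, GoodAt (a j) (m j) (f j) (Wk a m c t (Φ j) j) (δ j) (t j)) {k D e : ℕ} (hk : ∀ j ∈ J, k ≤ j)
    (hd : ∀ j ∈ J, 2 * (D * max 1 D) ≤ δ j) (he : e ≤ Φ k) (K : Type) [Field K] [NumberField K]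
    (hK : Module.finrank ℚ K ≤ D) (φ : K →+* ℂ)
    (P : MvPolynomial (Kn a m c t e k ⊕ IJ n J) K) (hP : P.totalDegree ≤ D)
    (h0 : MvPolynomial.aeval (Sum.elim (fun z : Kn a m c t e k => (z : ℂ)) (ps a m t J ∘ io n J)) (P.map φ) = 0)
    (Y : (Σ j, Fin (n j) × Fin (n j)) → ℂ)
    (hY : ∀ j, (fun i => Y ⟨j, i⟩) ∈ Fs J (fun j => Qt (n := n j) (f j) (t j)) (2 * Real.pi * Complex.I) j) :
    MvPolynomial.aeval (Sum.elim (fun z : Kn a m c t e k => (z : ℂ)) (Y ∘ io n J)) (P.map φ) = 0 := by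
  classical
  set S : Set (Kn a m c t e k ⊕ IJ n J → ℂ) := {z | ∃ Y : (Σ j, Fin (n j) × Fin (n j)) → ℂ,
    (∀ j, (fun i => Y ⟨j, i⟩) ∈ Fs J (fun j => Qt (n := n j) (f j) (t j)) (2 * Real.pi * Complex.I) j) ∧
    z = Sum.elim (fun z : Kn a m c t e k => (z : ℂ)) (Y ∘ io n J)} with hS
  refine numfield S ?_ (p := Sum.elim (fun z : Kn a m c t e k => (z : ℂ)) (ps a m t J ∘ io n J))
    ⟨_, ps_mem hn ha hf (fun j hj => (hJ j hj).1), rfl⟩ (D * max 1 D) ?_ K φ P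
    (Nat.mul_le_mul hK (max_le_max le_rfl hP)) h0 _ ⟨Y, hY, rfl⟩
  · intro ψ T P' hP'
    obtain ⟨Y, hY1, hY2⟩ := step4 (F := Fs J (fun j => Qt (n := n j) (f j) (t j)) (2 * Real.pi * Complex.I))
      (fun j => (Rs_ne (X0 := X0) _ j).mono (Rs_sub hX0 _ j)) (fun j => Fs_irr hn hX0 two_pi_I_ne j) T
      (fun i => MvPolynomial.aeval (Ls n (Kn a m c t e k) J) (P' i)) (fun i hi => by
        obtain ⟨_, ⟨Y, hY, rfl⟩, h1⟩ := hP' i hi
        exact ⟨Y, hY, by rw [Ls_eval]; exact h1⟩)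
    exact ⟨_, ⟨Y, hY1, rfl⟩, fun i hi => by rw [← Ls_eval]; exact hY2 i hi⟩
  · rintro M hM hM0 _ ⟨Y', hY', rfl⟩
    exact relZ hn hX0 hΦ hJ hk hd he M hM hM0 Y' hY'

end main

end Pool.Agent.L5helper73.Inf
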