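import Pool.Agent.L5helper73.Inf.E

/-!
# Infinitely many hyperelliptic curves: the relations with `2πi`, and the main theorem
-/

set_option autoImplicit false

open Matrix Polynomial NumberField

namespace Pool.Agent.L5helper73.Inf

open Pool.Agent.Y118.HP Pool.Agent.Y118.HG Pool.Agent.Y113

variable {n : ℕ → ℕ}

theorem eval2_zero {K : Type} [Field K] [NumberField K] (φ : K →+* ℂ) {U : K[X]}
    (h : U.eval₂ φ (2 * Real.pi * Complex.I) = 0) : U = 0 := by
  let _ : Algebra K ℂ := φ.toAlgebra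
  have h1 : Transcendental K (2 * Real.pi * Complex.I : ℂ) := transc_two_pi_I.extendScalars K
  exact transcendental_iff.1 h1 U h

section main

variable {a : ∀ j, Fin (n j) → ℝ} {m : ∀ j, Fin (n j + 1)} {f : ℕ → ℚ[X]} {c : ℕ → ℂ} {t : ℕ → ℕ} {J : Set ℕ}
  {X0 : ∀ j, Matrix (Fin (n j)) (Fin (n j)) ℚ} {δ Φ : ℕ → ℕ}

/-- relations over number fields with `2πi` as a coordinate -/
theorem absK (hn : ∀ j, Even (n j)) (ha : ∀ j, StrictMono (a j))
    (hf : ∀ j, (f j).map (algebraMap ℚ ℝ) = ∏ i, (X - C (a j i)))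
    (hX0 : ∀ j ∈ J, (X0 j).map (algebraMap ℚ ℂ) * Qt (n := n j) (f j) (t j) * ((X0 j).map (algebraMap ℚ ℂ)).transpose =
      jm ℂ (n j)) (hΦ : Monotone Φ)
    (hJ : ∀ j ∈ J, GoodAt (a j) (m j) (f j) (Wk a m c t (Φ j) j) (δ j) (t j)) {k D : ℕ} (hk : ∀ j ∈ J, k ≤ j)
    (hd : ∀ j ∈ J, 2 * (D * max 1 D) ≤ δ j) (K : Type) [Field K] [NumberField K]
    (hK : Module.finrank ℚ K ≤ D) (φ : K →+* ℂ)
    (P : MvPolynomial (Option (IJ n J)) K) (hP : P.totalDegree ≤ D)
    (h0 : MvPolynomial.aeval (fun o : Option (IJ n J) => o.elim (2 * Real.pi * Complex.I) (ps a m t J ∘ io n J))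
      (P.map φ) = 0) {lam : ℂ} (hl : lam ≠ 0)
    (Y : (Σ j, Fin (n j) × Fin (n j)) → ℂ)
    (hY : ∀ j, (fun i => Y ⟨j, i⟩) ∈ Fs J (fun j => Qt (n := n j) (f j) (t j)) lam j) :
    MvPolynomial.aeval (fun o : Option (IJ n J) => o.elim lam (Y ∘ io n J)) (P.map φ) = 0 := by
  classical
  -- the fibre over `2πi`
  have hfib : ∀ Y : (Σ j, Fin (n j) × Fin (n j)) → ℂ,
      (∀ j, (fun i => Y ⟨j, i⟩) ∈ Fs J (fun j => Qt (n := n j) (f j) (t j)) (2 * Real.pi * Complex.I) j) →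
      MvPolynomial.aeval (fun o : Option (IJ n J) => o.elim (2 * Real.pi * Complex.I) (Y ∘ io n J)) (P.map φ) = 0 := by
    intro Y hY
    set g : Option (IJ n J) → Kn a m c t 0 k ⊕ IJ n J := fun o =>
      o.elim (Sum.inl ⟨2 * Real.pi * Complex.I, Or.inl rfl⟩) Sum.inr with hg
    have hv : ∀ Z : (Σ j, Fin (n j) × Fin (n j)) → ℂ,
        MvPolynomial.aeval (Sum.elim (fun z : Kn a m c t 0 k => (z : ℂ)) (Z ∘ io n J)) ((MvPolynomial.rename g P).map φ) =
        MvPolynomial.aeval (fun o : Option (IJ n J) => o.elim (2 * Real.pi * Complex.I) (Z ∘ io n J)) (P.map φ) := by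
      intro Z
      rw [MvPolynomial.map_rename, MvPolynomial.aeval_rename]
      congr 2
      funext o
      rcases o with _ | x
      · rfl
      · rfl
    have h1 := relK hn ha hf hX0 hΦ hJ hk hd (Nat.zero_le _) K hK φ (MvPolynomial.rename g P)
      ((MvPolynomial.totalDegree_rename_le _ _).trans hP) (by rw [hv]; exact h0) Y hY
    rw [hv] at h1
    exact h1
  -- polynomials in the variables of all curves
  set L : ℂ → Option (IJ n J) → MvPolynomial (Σ j, Fin (n j) × Fin (n j)) ℂ := fun s o =>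
    o.elim (MvPolynomial.C s) (fun x => MvPolynomial.X (io n J x)) with hL
  have hLv : ∀ (s : ℂ) (Z : (Σ j, Fin (n j) × Fin (n j)) → ℂ),
      MvPolynomial.aeval Z (MvPolynomial.aeval (L s) (P.map φ)) =
        MvPolynomial.aeval (fun o : Option (IJ n J) => o.elim s (Z ∘ io n J)) (P.map φ) := by
    intro s Z
    have h1 := MvPolynomial.comp_aeval_apply (f := L s)
      (MvPolynomial.aeval Z : MvPolynomial (Σ j, Fin (n j) × Fin (n j)) ℂ →ₐ[ℂ] ℂ) (P.map φ)
    rw [h1]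
    congr 2
    funext o
    rcases o with _ | x
    · simp [hL]
    · simp [hL]
  rw [← hLv]
  refine step2 (F := Fs J (fun j => Qt (n := n j) (f j) (t j)) lam) (R := Rs J X0 lam) (fun j => Rs_ne _ j)
    (fun j => Fs_dense hn hX0 hl j) (fun Y hY => ?_) hY
  rw [hLv]
  have hq : ∀ j : ℕ, ∃ q : Matrix (Fin (n j)) (Fin (n j)) ℚ, q ∈ SpS ℚ (n j) ∧
      (j ∈ J → (fun i => Y ⟨j, i⟩) = fl (Dg (n j) lam * q.map (algebraMap ℚ ℂ) * (X0 j).map (algebraMap ℚ ℂ))) := by
    intro j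
    by_cases h : j ∈ J
    · have h1 := hY j
      unfold Rs at h1
      rw [if_pos h] at h1
      obtain ⟨q, hq, h2⟩ := h1
      exact ⟨q, hq, fun _ => h2⟩
    · exact ⟨1, SpS_one, fun hj => absurd hj h⟩
  choose q hq1 hq2 using hq
  -- the points over all `s`
  set Z : ℂ → (Σ j, Fin (n j) × Fin (n j)) → ℂ := fun s x => if x.1 ∈ J then
    fl (Dg (n x.1) s * (q x.1).map (algebraMap ℚ ℂ) * (X0 x.1).map (algebraMap ℚ ℂ)) x.2 else 0 with hZ
  have hZY : MvPolynomial.aeval (fun o : Option (IJ n J) => o.elim lam (Y ∘ io n J)) (P.map φ) =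
      MvPolynomial.aeval (fun o : Option (IJ n J) => o.elim lam (Z lam ∘ io n J)) (P.map φ) := by
    congr 2
    funext o
    rcases o with _ | x
    · rfl
    · show Y (io n J x) = Z lam (io n J x)
      have h1 := congrFun (hq2 x.1 x.1.2) x.2
      rw [hZ]
      simp only
      rw [if_pos (show (io n J x).1 ∈ J from x.1.2)]
      exact h1
  have hZmem : ∀ j, (fun i => Z (2 * Real.pi * Complex.I) ⟨j, i⟩) ∈
      Fs J (fun j => Qt (n := n j) (f j) (t j)) (2 * Real.pi * Complex.I) j := by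
    intro j
    refine Rs_sub hX0 _ j ?_
    unfold Rs
    by_cases h : j ∈ J
    · rw [if_pos h]
      refine ⟨q j, hq1 j, ?_⟩
      funext i
      rw [hZ]
      simp only
      rw [if_pos h]
    · rw [if_neg h]
      rw [Set.mem_singleton_iff]
      funext i
      rw [hZ]
      simp only
      rw [if_neg h]
      rfl
  -- the polynomial in `s`
  set E : Option (IJ n J) → K[X] := fun o => o.elim X fun x =>
    fl (Dg (n x.1) (X : K[X]) * (q x.1).map (algebraMap ℚ K[X]) * (X0 x.1).map (algebraMap ℚ K[X])) x.2 with hE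
  have hEv : ∀ s : ℂ, (MvPolynomial.aeval E P : K[X]).eval₂ φ s =
      MvPolynomial.aeval (fun o : Option (IJ n J) => o.elim s (Z s ∘ io n J)) (P.map φ) := by
    intro s
    have e1 : (MvPolynomial.aeval E P : K[X]).eval₂ φ s = MvPolynomial.eval₂ φ
        (fun o => (Polynomial.eval₂RingHom φ s) (E o)) P := by
      rw [← Polynomial.coe_eval₂RingHom, MvPolynomial.aeval_def, MvPolynomial.hom_eval₂]
      congr 1
      ext z
      simp
    rw [e1, MvPolynomial.aeval_def, MvPolynomial.eval₂_map]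
    congr 1
    funext o
    rcases o with _ | x
    · simp [hE]
    · show (Polynomial.eval₂RingHom φ s) (E (some x)) = Z s (io n J x)
      rw [hZ]
      simp only
      rw [if_pos (show (io n J x).1 ∈ J from x.1.2)]
      have h2 : ∀ r : ℚ, (Polynomial.eval₂RingHom φ s) (algebraMap ℚ K[X] r) = algebraMap ℚ ℂ r := by
        intro r
        exact RingHom.congr_fun (Subsingleton.elim ((Polynomial.eval₂RingHom φ s).comp (algebraMap ℚ K[X]))
          (algebraMap ℚ ℂ)) r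
      have h3 : (Dg (n x.1) (X : K[X])).map (Polynomial.eval₂RingHom φ s) = Dg (n x.1) s := by
        rw [Dg_map]
        simp
      have h4 : ∀ B : Matrix (Fin (n x.1)) (Fin (n x.1)) ℚ,
          (B.map (algebraMap ℚ K[X])).map (Polynomial.eval₂RingHom φ s) = B.map (algebraMap ℚ ℂ) := by
        intro B
        ext r c
        rw [Matrix.map_apply, Matrix.map_apply, Matrix.map_apply, h2]
      have h5 : (Dg (n x.1) (X : K[X]) * (q x.1).map (algebraMap ℚ K[X]) * (X0 x.1).map (algebraMap ℚ K[X])).map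
          (Polynomial.eval₂RingHom φ s) =
          Dg (n x.1) s * (q x.1).map (algebraMap ℚ ℂ) * (X0 x.1).map (algebraMap ℚ ℂ) := by
        rw [Matrix.map_mul, Matrix.map_mul, h3, h4, h4]
      have h6 := congrFun (congrFun h5 x.2.1) x.2.2
      rw [Matrix.map_apply] at h6
      exact h6
  have hE0 : (MvPolynomial.aeval E P : K[X]) = 0 := eval2_zero φ (by rw [hEv]; exact hfib _ hZmem)
  rw [hZY, ← hEv, hE0, Polynomial.eval₂_zero]

end main

/-- **Main theorem.** -/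
theorem main (hn : ∀ j, Even (n j)) (a : ∀ j, Fin (n j) → ℝ) (ha : ∀ j, StrictMono (a j)) (f : ℕ → ℚ[X])
    (hf : ∀ j, (f j).map (algebraMap ℚ ℝ) = ∏ i, (X - C (a j i))) (m : ∀ j, Fin (n j + 1))
    (h0 : ∀ j, InGap (a j) (m j) 0) (ψ : ℕ → ℕ) :
    ∃ γ M : ℕ → ℝ, (∀ j, 0 < γ j) ∧ ∀ c : ℕ → ℂ, ∃ B : ℕ → (ℕ → ℕ) → Set ℕ,
      (∀ j t t', (∀ i < j, t i = t' i) → B j t = B j t') ∧
      (∀ j t T, 1 ≤ T → ((B j t ∩ Set.Icc 1 T).ncard : ℝ) ≤ M j * (T : ℝ) ^ (1 - γ j)) ∧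
      ∀ (t : ℕ → ℕ) (J : Set ℕ), (∀ j ∈ J, t j ∉ B j t) →
        (∀ j ∈ J, InGap (a j) (m j) (1 / (t j : ℝ))) ∧
        ∀ k, (∀ j ∈ J, k ≤ j) → ∀ (K : Type) [Field K] [NumberField K], Module.finrank ℚ K ≤ ψ k → ∀ φ : K →+* ℂ,
          (∀ P : MvPolynomial (Option (IJ n J)) K, P.totalDegree ≤ ψ k →
            MvPolynomial.aeval (fun o : Option (IJ n J) => o.elim (2 * Real.pi * Complex.I) (ps a m t J ∘ io n J))
              (P.map φ) = 0 → ∀ lam : ℂ, lam ≠ 0 → ∀ Y : (Σ j, Fin (n j) × Fin (n j)) → ℂ,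
              (∀ j, (fun i => Y ⟨j, i⟩) ∈ Fs J (fun j => Qt (n := n j) (f j) (t j)) lam j) →
              MvPolynomial.aeval (fun o : Option (IJ n J) => o.elim lam (Y ∘ io n J)) (P.map φ) = 0) ∧
          (∀ P : MvPolynomial (Kn a m c t (ψ k) k ⊕ IJ n J) K, P.totalDegree ≤ ψ k →
            MvPolynomial.aeval (Sum.elim (fun z : Kn a m c t (ψ k) k => (z : ℂ)) (ps a m t J ∘ io n J)) (P.map φ) = 0 →
            ∀ Y : (Σ j, Fin (n j) × Fin (n j)) → ℂ,
              (∀ j, (fun i => Y ⟨j, i⟩) ∈ Fs J (fun j => Qt (n := n j) (f j) (t j)) (2 * Real.pi * Complex.I) j) →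
              MvPolynomial.aeval (Sum.elim (fun z : Kn a m c t (ψ k) k => (z : ℂ)) (Y ∘ io n J)) (P.map φ) = 0) := by
  classical
  set Φ : ℕ → ℕ := fun j => ∑ i ∈ Finset.range (j + 1), ψ i with hΦ
  have hΦm : Monotone Φ := fun i j hij => Finset.sum_le_sum_of_subset (Finset.range_mono (by omega))
  have hΦψ : ∀ k, ψ k ≤ Φ k := fun k => Finset.single_le_sum (f := ψ) (fun _ _ => Nat.zero_le _)
    (Finset.mem_range.2 (Nat.lt_succ_self k))
  set δ : ℕ → ℕ := fun j => ∑ i ∈ Finset.range (j + 1), 2 * (ψ i * max 1 (ψ i)) with hδ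
  have hδψ : ∀ k j, k ≤ j → 2 * (ψ k * max 1 (ψ k)) ≤ δ j := fun k j hkj =>
    Finset.single_le_sum (f := fun i => 2 * (ψ i * max 1 (ψ i))) (fun _ _ => Nat.zero_le _)
      (Finset.mem_range.2 (Nat.lt_succ_of_le hkj))
  choose γ M hγ hM using fun j => one_family (hn j) (a j) (ha j) (m j) (f j) (h0 j) (hf j)
    (Fintype.card (Kidx n (Φ j) j)) (δ j)
  refine ⟨γ, M, hγ, fun c => ⟨fun j t => {τ | ¬ GoodAt (a j) (m j) (f j) (Wk a m c t (Φ j) j) (δ j) τ},
    fun j t t' h => ?_, fun j t T hT => ?_, fun t J hJ => ?_⟩⟩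
  · show {τ | ¬ GoodAt (a j) (m j) (f j) (Wk a m c t (Φ j) j) (δ j) τ} =
      {τ | ¬ GoodAt (a j) (m j) (f j) (Wk a m c t' (Φ j) j) (δ j) τ}
    rw [Wk_congr a m c h]
  · obtain ⟨h1, h2⟩ := Wk_fin a m c t (Φ j) j
    exact hM j _ h1 h2 T hT
  have hJ' : ∀ j ∈ J, GoodAt (a j) (m j) (f j) (Wk a m c t (Φ j) j) (δ j) (t j) := fun j hj => not_not.1 (hJ j hj)
  have hX0 : ∀ j, ∃ X0 : Matrix (Fin (n j)) (Fin (n j)) ℚ, j ∈ J →
      X0.map (algebraMap ℚ ℂ) * Qt (n := n j) (f j) (t j) * (X0.map (algebraMap ℚ ℂ)).transpose = jm ℂ (n j) := by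
    intro j
    by_cases h : j ∈ J
    · have hcast : (((1 / (t j : ℚ) : ℚ)) : ℝ) = 1 / (t j : ℝ) := by push_cast; rfl
      have h1 := (hJ' j h).1
      rw [← hcast] at h1
      obtain ⟨X0, hX0⟩ := exists_X0 (hn j) (ha j) (hf j) h1
      refine ⟨X0, fun _ => ?_⟩
      have hQc : ((-1 / 2 : ℚ) • (Qp (n j) (f j)).map (Polynomial.eval (1 / (t j : ℚ)))).map (algebraMap ℚ ℂ) =
          Qt (n := n j) (f j) (t j) := by
        unfold Qt
        rw [← map_rat]
        ext r c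
        rw [Matrix.map_apply, Matrix.smul_apply, Matrix.smul_apply]
        simp only [smul_eq_mul, map_mul]
        congr 1
        simp
      rw [← hQc, ← Matrix.transpose_map, ← Matrix.map_mul, ← Matrix.map_mul, hX0, jm_map]
    · exact ⟨0, fun h' => absurd h' h⟩
  choose X0 hX0 using hX0
  refine ⟨fun j hj => (hJ' j hj).1, fun k hk K _ _ hK φ => ⟨fun P hP hP0 lam hl Y hY => ?_, fun P hP hP0 Y hY => ?_⟩⟩
  · exact absK hn ha hf hX0 hΦm hJ' hk (fun j hj => hδψ k j (hk j hj)) K hK φ P hP hP0 hl Y hY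
  · exact relK hn ha hf hX0 hΦm hJ' hk (fun j hj => hδψ k j (hk j hj)) (hΦψ k) K hK φ P hP hP0 Y hY

end Pool.Agent.L5helper73.Inf
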