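import Pool.Agent.L5helper73.Inf.E

/-!
# Infinitely many groups of numbers over `2πi`: abstract part

Each group `j` has a family of irreducible sets `F lam j`, `lam ≠ 0`, and curves `lam ↦ (e i (lam))` in these sets, given by
polynomials `e i` over `ℚ` of degree at most one, whose points are dense in each of the `F lam j`.
-/

set_option autoImplicit false

open Polynomial NumberField

namespace Pool.Agent.L5helper73.Inf

open Pool.Agent.Y118.HP Pool.Agent.Y118.HG Pool.Agent.Y113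

/-- groups of numbers -/
structure Grp (I : ℕ → Type) where
  F : ℂ → ∀ j, Set (I j → ℂ)
  E : ∀ j, Set (I j → ℚ[X])
  ne : ∀ j, (E j).Nonempty
  deg : ∀ j, ∀ e ∈ E j, ∀ i, ∃ a b : ℚ, e i = C a * X + C b
  mem : ∀ j, ∀ e ∈ E j, ∀ lam : ℂ, (fun i => Polynomial.aeval lam (e i)) ∈ F lam j
  dense : ∀ lam : ℂ, lam ≠ 0 → ∀ j, ∀ Q : MvPolynomial (I j) ℂ,
    (∀ e ∈ E j, MvPolynomial.aeval (fun i => (Polynomial.aeval lam (e i) : ℂ)) Q = 0) →
      ∀ y ∈ F lam j, MvPolynomial.aeval y Q = 0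
  irr : ∀ lam : ℂ, lam ≠ 0 → ∀ j, ∀ Q Q' : MvPolynomial (I j) ℂ, (∃ y ∈ F lam j, MvPolynomial.aeval y Q ≠ 0) →
    (∃ y ∈ F lam j, MvPolynomial.aeval y Q' ≠ 0) → ∃ y ∈ F lam j, MvPolynomial.aeval y Q ≠ 0 ∧ MvPolynomial.aeval y Q' ≠ 0

variable {I : ℕ → Type}

namespace Grp

/-- the points on the curves -/
def R (D : Grp I) (lam : ℂ) (j : ℕ) : Set (I j → ℂ) := {y | ∃ e ∈ D.E j, y = fun i => Polynomial.aeval lam (e i)}

theorem R_sub (D : Grp I) (lam : ℂ) (j : ℕ) : D.R lam j ⊆ D.F lam j := by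
  rintro _ ⟨e, he, rfl⟩
  exact D.mem j e he lam

theorem R_ne (D : Grp I) (lam : ℂ) (j : ℕ) : (D.R lam j).Nonempty := by
  obtain ⟨e, he⟩ := D.ne j
  exact ⟨_, e, he, rfl⟩

theorem F_ne (D : Grp I) (lam : ℂ) (j : ℕ) : (D.F lam j).Nonempty := (D.R_ne lam j).mono (D.R_sub lam j)

theorem R_mem (D : Grp I) {lam : ℂ} {W : Submodule ℚ ℂ} (h1 : (1 : ℂ) ∈ W) (h2 : lam ∈ W) {j : ℕ} {y : I j → ℂ}
    (hy : y ∈ D.R lam j) (i : I j) : y i ∈ W := by
  obtain ⟨e, he, rfl⟩ := hy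
  obtain ⟨a, b, hab⟩ := D.deg j e he i
  show Polynomial.aeval lam (e i) ∈ W
  rw [hab, map_add, map_mul, Polynomial.aeval_C, Polynomial.aeval_X, Polynomial.aeval_C]
  refine W.add_mem ?_ ?_
  · rw [← Algebra.smul_def]
    exact W.smul_mem a h2
  · have : (algebraMap ℚ ℂ) b = b • (1 : ℂ) := by rw [Algebra.smul_def, mul_one]
    rw [this]
    exact W.smul_mem b h1

theorem R_dense (D : Grp I) {lam : ℂ} (hl : lam ≠ 0) (j : ℕ) (Q : MvPolynomial (I j) ℂ)
    (h : ∀ y ∈ D.R lam j, MvPolynomial.aeval y Q = 0) : ∀ y ∈ D.F lam j, MvPolynomial.aeval y Q = 0 :=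
  D.dense lam hl j Q fun e he => h _ ⟨e, he, rfl⟩

end Grp

/-- the substitution of the known numbers, any index type -/
noncomputable def Lg {ι : Type} (κ : Set ℂ) (io : ι → Σ j, I j) : κ ⊕ ι → MvPolynomial (Σ j, I j) ℂ :=
  Sum.elim (fun z => MvPolynomial.C (z : ℂ)) (fun x => MvPolynomial.X (io x))

theorem Lg_eval {ι : Type} (κ : Set ℂ) (io : ι → Σ j, I j) (P : MvPolynomial (κ ⊕ ι) ℂ) (Y : (Σ j, I j) → ℂ) :
    MvPolynomial.aeval Y (MvPolynomial.aeval (Lg κ io) P) =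
      MvPolynomial.aeval (Sum.elim (fun z : κ => (z : ℂ)) (Y ∘ io)) P := by
  have h1 := MvPolynomial.comp_aeval_apply (f := Lg κ io)
    (MvPolynomial.aeval Y : MvPolynomial (Σ j, I j) ℂ →ₐ[ℂ] ℂ) P
  rw [h1]
  congr 2
  funext o
  rcases o with z | x
  · simp [Lg]
  · simp [Lg]

theorem Lg_vars {ι : Type} (κ : Set ℂ) (io : ι → Σ j, I j) (P : MvPolynomial (κ ⊕ ι) ℂ) :
    ∀ x ∈ (MvPolynomial.aeval (Lg κ io) P).vars, ∃ y, io y = x := by
  classical
  have h1 : MvPolynomial.aeval (Lg κ io) P = MvPolynomial.rename io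
      (MvPolynomial.aeval (Sum.elim (fun z : κ => MvPolynomial.C (z : ℂ)) (fun x => MvPolynomial.X x) :
        κ ⊕ ι → MvPolynomial ι ℂ) P) := by
    have h2 := MvPolynomial.comp_aeval_apply (f := (Sum.elim (fun z : κ => MvPolynomial.C (z : ℂ))
      (fun x => MvPolynomial.X x) : κ ⊕ ι → MvPolynomial ι ℂ))
      (MvPolynomial.rename io : MvPolynomial ι ℂ →ₐ[ℂ] MvPolynomial (Σ j, I j) ℂ) P
    rw [h2]
    congr 2
    funext o
    rcases o with z | x
    · simp [Lg]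
    · simp [Lg]
  intro x hx
  rw [h1] at hx
  have h2 := MvPolynomial.vars_rename io _ hx
  obtain ⟨y, -, rfl⟩ := Finset.mem_image.1 h2
  exact ⟨y, rfl⟩

section main

variable (D : Grp I) {p : (Σ j, I j) → ℂ} {W : ℕ → Submodule ℚ ℂ} {δ : ℕ → ℕ} {J : Set ℕ} {ι : Type}
  {io : ι → Σ j, I j}

/-- The assumptions. -/
structure Asm (D : Grp I) (p : (Σ j, I j) → ℂ) (W : ℕ → Submodule ℚ ℂ) (δ : ℕ → ℕ) (J : Set ℕ) : Prop where
  one : ∀ j, (1 : ℂ) ∈ W j
  tpi : ∀ j, (2 * Real.pi * Complex.I : ℂ) ∈ W j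
  mono : Monotone W
  pW : ∀ j k, j < k → ∀ i, p ⟨j, i⟩ ∈ W k
  pF : ∀ j, (fun i => p ⟨j, i⟩) ∈ D.F (2 * Real.pi * Complex.I) j
  good : ∀ j ∈ J, ∀ Q : MvPolynomial (I j) ℂ, DC (δ j) ((W j) ^ (δ j)) Q →
    MvPolynomial.aeval (fun i => p ⟨j, i⟩) Q = 0 → ∀ X ∈ D.F (2 * Real.pi * Complex.I) j, MvPolynomial.aeval X Q = 0

/-- relations with integral coefficients -/
theorem Asm.relZ {D : Grp I} (h : Asm D p W δ J) {k d : ℕ} (hk : ∀ x, (io x).1 ∈ J ∧ k ≤ (io x).1)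
    (hd : ∀ j ∈ J, k ≤ j → 2 * d ≤ δ j) {κ : Set ℂ} (hκ : κ ⊆ W k) (M : MvPolynomial (κ ⊕ ι) ℤ) (hM : M.totalDegree ≤ d)
    (h0 : MvPolynomial.aeval (Sum.elim (fun z : κ => (z : ℂ)) (p ∘ io)) M = 0)
    (Y : (Σ j, I j) → ℂ) (hY : ∀ j, (fun i => Y ⟨j, i⟩) ∈ D.F (2 * Real.pi * Complex.I) j) :
    MvPolynomial.aeval (Sum.elim (fun z : κ => (z : ℂ)) (Y ∘ io)) M = 0 := by
  classical
  rw [aeval_int_map, ← Lg_eval] at h0 ⊢
  have hDM : DC d (1 : Submodule ℚ ℂ) (M.map (Int.castRingHom ℂ)) := by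
    refine ⟨(totalDegree_map_le _ M).trans hM, fun s => ?_⟩
    rw [MvPolynomial.coeff_map, Submodule.mem_one]
    exact ⟨((M.coeff s : ℤ) : ℚ), by simp⟩
  have hDP := DC_subst (h.one k) (Lg κ io) (fun o => by
    rcases o with z | x
    · exact DC_C (hκ z.2)
    · exact DC_X (h.one k) _) hDM
  rw [one_mul] at hDP
  refine step2 (F := D.F (2 * Real.pi * Complex.I)) (R := D.R (2 * Real.pi * Complex.I)) (fun j => D.R_ne _ j)
    (fun j => D.R_dense two_pi_I_ne j) (fun Y hY => ?_) hY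
  refine step1 (p := p) (F := D.F (2 * Real.pi * Complex.I)) (R := D.R (2 * Real.pi * Complex.I)) (W := W) (δ := δ)
    (J := J) (k := k) (d := d) (fun j => D.R_sub _ j) (fun j k y hy i => D.R_mem (h.one k) (h.tpi k) hy i) h.one h.mono
    h.pW h.good hd hDP (fun x hx => ?_) h0 hY
  obtain ⟨y, rfl⟩ := Lg_vars κ io _ x hx
  exact hk y

/-- relations over number fields, relative to the known numbers -/
theorem Asm.relK {D : Grp I} (h : Asm D p W δ J) {k e : ℕ} (hk : ∀ x, (io x).1 ∈ J ∧ k ≤ (io x).1)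
    (hd : ∀ j ∈ J, k ≤ j → 2 * (e * max 1 e) ≤ δ j) {κ : Set ℂ} (hκ : κ ⊆ W k) (K : Type) [Field K] [NumberField K]
    (hK : Module.finrank ℚ K ≤ e) (φ : K →+* ℂ)
    (P : MvPolynomial (κ ⊕ ι) K) (hP : P.totalDegree ≤ e)
    (h0 : MvPolynomial.aeval (Sum.elim (fun z : κ => (z : ℂ)) (p ∘ io)) (P.map φ) = 0)
    (Y : (Σ j, I j) → ℂ) (hY : ∀ j, (fun i => Y ⟨j, i⟩) ∈ D.F (2 * Real.pi * Complex.I) j) :
    MvPolynomial.aeval (Sum.elim (fun z : κ => (z : ℂ)) (Y ∘ io)) (P.map φ) = 0 := by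
  classical
  set S : Set (κ ⊕ ι → ℂ) := {z | ∃ Y : (Σ j, I j) → ℂ,
    (∀ j, (fun i => Y ⟨j, i⟩) ∈ D.F (2 * Real.pi * Complex.I) j) ∧
    z = Sum.elim (fun z : κ => (z : ℂ)) (Y ∘ io)} with hS
  refine numfield S ?_ (p := Sum.elim (fun z : κ => (z : ℂ)) (p ∘ io))
    ⟨_, h.pF, rfl⟩ (e * max 1 e) ?_ K φ P
    (Nat.mul_le_mul hK (max_le_max le_rfl hP)) h0 _ ⟨Y, hY, rfl⟩
  · intro ψ T P' hP'
    obtain ⟨Y, hY1, hY2⟩ := step4 (F := D.F (2 * Real.pi * Complex.I))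
      (fun j => D.F_ne _ j) (fun j => D.irr _ two_pi_I_ne j) T
      (fun i => MvPolynomial.aeval (Lg κ io) (P' i)) (fun i hi => by
        obtain ⟨_, ⟨Y, hY, rfl⟩, h1⟩ := hP' i hi
        exact ⟨Y, hY, by rw [Lg_eval]; exact h1⟩)
    exact ⟨_, ⟨Y, hY1, rfl⟩, fun i hi => by rw [← Lg_eval]; exact hY2 i hi⟩
  · rintro M hM hM0 _ ⟨Y', hY', rfl⟩
    exact h.relZ hk hd hκ M hM hM0 Y' hY'

theorem eval2_zero' {K : Type} [Field K] [NumberField K] (φ : K →+* ℂ) {U : K[X]}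
    (h : U.eval₂ φ (2 * Real.pi * Complex.I) = 0) : U = 0 := by
  let _ : Algebra K ℂ := φ.toAlgebra
  have h1 : Transcendental K (2 * Real.pi * Complex.I : ℂ) := transc_two_pi_I.extendScalars K
  exact transcendental_iff.1 h1 U h

/-- relations over number fields with `2πi` as a coordinate -/
theorem Asm.absK {D : Grp I} (h : Asm D p W δ J) {k e : ℕ} (hk : ∀ x, (io x).1 ∈ J ∧ k ≤ (io x).1)
    (hd : ∀ j ∈ J, k ≤ j → 2 * (e * max 1 e) ≤ δ j) (K : Type) [Field K] [NumberField K]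
    (hK : Module.finrank ℚ K ≤ e) (φ : K →+* ℂ)
    (P : MvPolynomial (Option ι) K) (hP : P.totalDegree ≤ e)
    (h0 : MvPolynomial.aeval (fun o : Option ι => o.elim (2 * Real.pi * Complex.I) (p ∘ io)) (P.map φ) = 0)
    {lam : ℂ} (hl : lam ≠ 0) (Y : (Σ j, I j) → ℂ) (hY : ∀ j, (fun i => Y ⟨j, i⟩) ∈ D.F lam j) :
    MvPolynomial.aeval (fun o : Option ι => o.elim lam (Y ∘ io)) (P.map φ) = 0 := by
  classical
  -- the fibre over `2πi`
  have hfib : ∀ Y : (Σ j, I j) → ℂ,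
      (∀ j, (fun i => Y ⟨j, i⟩) ∈ D.F (2 * Real.pi * Complex.I) j) →
      MvPolynomial.aeval (fun o : Option ι => o.elim (2 * Real.pi * Complex.I) (Y ∘ io)) (P.map φ) = 0 := by
    intro Y hY
    set κ : Set ℂ := {2 * Real.pi * Complex.I} with hκ
    set g : Option ι → κ ⊕ ι := fun o => o.elim (Sum.inl ⟨2 * Real.pi * Complex.I, rfl⟩) Sum.inr with hg
    have hv : ∀ Z : (Σ j, I j) → ℂ,
        MvPolynomial.aeval (Sum.elim (fun z : κ => (z : ℂ)) (Z ∘ io)) ((MvPolynomial.rename g P).map φ) =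
        MvPolynomial.aeval (fun o : Option ι => o.elim (2 * Real.pi * Complex.I) (Z ∘ io)) (P.map φ) := by
      intro Z
      rw [MvPolynomial.map_rename, MvPolynomial.aeval_rename]
      congr 2
      funext o
      rcases o with _ | x
      · rfl
      · rfl
    have h1 := h.relK hk hd (κ := κ) (by rw [hκ, Set.singleton_subset_iff]; exact h.tpi k) K hK φ
      (MvPolynomial.rename g P)
      ((MvPolynomial.totalDegree_rename_le _ _).trans hP) (by rw [hv]; exact h0) Y hY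
    rw [hv] at h1
    exact h1
  -- polynomials in the variables of all groups
  set L : ℂ → Option ι → MvPolynomial (Σ j, I j) ℂ := fun s o =>
    o.elim (MvPolynomial.C s) (fun x => MvPolynomial.X (io x)) with hL
  have hLv : ∀ (s : ℂ) (Z : (Σ j, I j) → ℂ),
      MvPolynomial.aeval Z (MvPolynomial.aeval (L s) (P.map φ)) =
        MvPolynomial.aeval (fun o : Option ι => o.elim s (Z ∘ io)) (P.map φ) := by
    intro s Z
    have h1 := MvPolynomial.comp_aeval_apply (f := L s)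
      (MvPolynomial.aeval Z : MvPolynomial (Σ j, I j) ℂ →ₐ[ℂ] ℂ) (P.map φ)
    rw [h1]
    congr 2
    funext o
    rcases o with _ | x
    · simp [hL]
    · simp [hL]
  rw [← hLv]
  refine step2 (F := D.F lam) (R := D.R lam) (fun j => D.R_ne _ j) (fun j => D.R_dense hl j) (fun Y hY => ?_) hY
  rw [hLv]
  choose q hq1 hq2 using hY
  -- the points over all `s`
  set Z : ℂ → (Σ j, I j) → ℂ := fun s x => Polynomial.aeval s (q x.1 x.2) with hZ
  have hZY : Y = Z lam := by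
    funext x
    exact congrFun (hq2 x.1) x.2
  rw [hZY]
  -- the polynomial in `s`
  set E : Option ι → K[X] := fun o => o.elim X fun x => (q (io x).1 (io x).2).map (algebraMap ℚ K) with hE
  have hEv : ∀ s : ℂ, (MvPolynomial.aeval E P : K[X]).eval₂ φ s =
      MvPolynomial.aeval (fun o : Option ι => o.elim s (Z s ∘ io)) (P.map φ) := by
    intro s
    have e1 : (MvPolynomial.aeval E P : K[X]).eval₂ φ s = MvPolynomial.eval₂ φ
        (fun o => (Polynomial.eval₂RingHom φ s) (E o)) P := by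
      rw [← Polynomial.coe_eval₂RingHom, MvPolynomial.aeval_def, MvPolynomial.hom_eval₂]
      congr 1
      ext z
      simp
    rw [e1, MvPolynomial.aeval_def, MvPolynomial.eval₂_map]
    congr 1
    funext o
    rcases o with _ | x
    · simp [hE]
    · show (Polynomial.eval₂RingHom φ s) (E (some x)) = Z s (io x)
      rw [hZ, hE]
      show Polynomial.eval₂ φ s ((q (io x).1 (io x).2).map (algebraMap ℚ K)) =
        Polynomial.aeval s (q (io x).1 (io x).2)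
      rw [Polynomial.eval₂_map, Polynomial.aeval_def]
      congr 1
      exact Subsingleton.elim _ _
  have hE0 : (MvPolynomial.aeval E P : K[X]) = 0 := eval2_zero' φ (by
    rw [hEv]
    exact hfib _ fun j => D.mem j (q j) (hq1 j) _)
  rw [← hEv, hE0, Polynomial.eval₂_zero]

end main

end Pool.Agent.L5helper73.Inf
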