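import Pool.Agent.L5helper73.Inf.W
import Pool.Agent.L5helper73.Inf.H
import Pool.Agent.R351.GD.J.Win

/-!
# Windows of isogeny classes: infinitely many windows
-/

set_option autoImplicit false

open Polynomial NumberField

namespace Pool.Agent.L5helper73.Inf

open Pool.Agent.Y113 Pool.Agent.Y120.J Pool.Agent.Y120.K
open Pool.Agent.TH21.MS (jj)

/-- free groups -/
noncomputable def GU (I : ℕ → Type) : Grp I where
  F := fun _ _ => Set.univ
  E := fun j => {e | ∃ b : I j → ℚ, e = fun i => C (b i)}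
  ne := fun j => ⟨_, fun _ => 0, rfl⟩
  deg := by
    rintro j e ⟨b, rfl⟩ i
    exact ⟨0, b i, by simp⟩
  mem := fun _ _ _ _ => Set.mem_univ _
  dense := by
    intro lam _ j Q hQ y _
    have h : Q = 0 := by
      refine MvPolynomial.funext_set (fun _ => Set.range (algebraMap ℚ ℂ))
        (fun _ => Set.infinite_range_of_injective (algebraMap ℚ ℂ).injective) fun x hx => ?_
      choose b hb using fun i => hx i (Set.mem_univ i)
      have h1 := hQ _ ⟨b, rfl⟩
      rw [map_zero, ← h1, ← MvPolynomial.aeval_eq_eval]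
      congr 2
      funext i
      rw [Polynomial.aeval_C]
      exact (hb i).symm
    rw [h, map_zero]
  irr := by
    rintro lam _ j Q Q' ⟨y, _, hy⟩ ⟨y', _, hy'⟩
    have hne : Q * Q' ≠ 0 := mul_ne_zero (by rintro rfl; exact hy (map_zero _)) (by rintro rfl; exact hy' (map_zero _))
    by_contra hcon
    refine hne (MvPolynomial.funext fun x => ?_)
    by_contra h1
    rw [map_zero, map_mul] at h1
    exact hcon ⟨x, Set.mem_univ _, left_ne_zero_of_mul h1, right_ne_zero_of_mul h1⟩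

/-- the points equivalent to the points with invariant `n` -/
def IsoZ (n : ℤ) (z : ℂ) : Prop := ∃ v : UpperHalfPlane, jj v = n ∧ ∃ a b c d : ℚ, a * d - b * c ≠ 0 ∧
  z = ((a : ℂ) * v + b) / ((c : ℂ) * v + d)

/-- one window -/
theorem stageJ (q H δ : ℕ) : ∃ τ : ℕ, ∀ N, τ ≤ N → ∀ (w : Fin q → ℂ) (s : Bool), ∃ S : Finset ℕ,
    S ⊆ Finset.range (H + 1) ∧ S.card ≤ q + 2 ∧ ∀ z : ℕ → ℂ, (∀ u, u ≤ H → IsoZ (si s * ((N + u : ℕ) : ℤ)) (z u)) →
      ∀ Q : MvPolynomial {u // u ∈ Finset.range (H + 1) \ S} ℂ,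
        DC δ ((Submodule.span ℚ (insert 1 (Set.range (wo w)))) ^ δ) Q →
          MvPolynomial.aeval (fun u : {u // u ∈ Finset.range (H + 1) \ S} => z u) Q = 0 →
          ∀ X : {u // u ∈ Finset.range (H + 1) \ S} → ℂ, MvPolynomial.aeval X Q = 0 := by
  classical
  obtain ⟨E, -, hE⟩ := Pool.Agent.R351.GD.winI_exp q (H + 1 - (q + 2))
  refine ⟨(H + 2) ^ E (2 * δ + 1), fun N hN w s => ?_⟩
  rcases Nat.lt_or_ge (q + 2) (H + 1) with hlt | hge
  swap
  · refine ⟨Finset.range (H + 1), subset_rfl, by rw [Finset.card_range]; exact hge, fun z hz Q hQ hQ0 X => ?_⟩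
    have h1 : IsEmpty {u // u ∈ Finset.range (H + 1) \ Finset.range (H + 1)} := ⟨fun u => by
      have := u.2
      simp at this⟩
    rw [← hQ0]
    congr 2
    exact Subsingleton.elim _ _
  have hsi : ∀ s, si s ≠ 0 := by
    intro s
    unfold si
    split_ifs <;> norm_num
  obtain ⟨S₀, hS₀, hwin⟩ := hE (2 * δ + 1) N H hN w s
  set S₁ : Finset ℕ := (Finset.range (H + 1)).filter fun u => si s * ((N + u : ℕ) : ℤ) ∈ S₀ with hS₁
  have hinj0 : Function.Injective fun u : ℕ => si s * ((N + u : ℕ) : ℤ) := by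
    intro u u' h
    have h1 := mul_left_cancel₀ (hsi s) h
    have h2 : N + u = N + u' := by exact_mod_cast h1
    omega
  have hS₁c : S₁.card ≤ q + 2 := by
    refine (Finset.card_le_card_of_injOn (fun u : ℕ => si s * ((N + u : ℕ) : ℤ)) (fun u hu => ?_)
      hinj0.injOn).trans hS₀
    exact (Finset.mem_filter.1 hu).2
  obtain ⟨S, hS3, hS4, hS5⟩ := Finset.exists_subsuperset_card_eq (Finset.filter_subset _ _) hS₁c
    (by rw [Finset.card_range]; omega)
  refine ⟨S, hS4, hS5.le, fun z hz Q hQ hQ0 X => ?_⟩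
  have hEc : (Finset.range (H + 1) \ S).card = H + 1 - (q + 2) := by
    rw [Finset.card_sdiff_of_subset hS4, hS5, Finset.card_range]
  set ε : Fin (H + 1 - (q + 2)) ≃o (Finset.range (H + 1) \ S : Finset ℕ) :=
    (Finset.range (H + 1) \ S).orderIsoOfFin hEc with hε
  have hεH : ∀ i, (ε i : ℕ) ≤ H := fun i => by
    have h1 := (Finset.mem_sdiff.1 (ε i).2).1
    rw [Finset.mem_range] at h1
    omega
  choose v hv a b c d hdet hzv using fun i => hz (ε i) (hεH i)
  obtain ⟨P, hP1, hP2⟩ := lift_DC _ δ hQ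
  set K : IntermediateField ℚ ℂ := ⊥ with hK
  set P' : MvPolynomial (Option (Fin q) ⊕ Fin (H + 1 - (q + 2))) K :=
    (MvPolynomial.rename (Sum.map id ε.symm) P).map (algebraMap ℚ K) with hP'
  have hev : ∀ x : {u // u ∈ Finset.range (H + 1) \ S} → ℂ,
      MvPolynomial.aeval (Sum.elim (wo w) fun i => x (ε i)) P' = MvPolynomial.aeval x Q := by
    intro x
    rw [hP', MvPolynomial.aeval_map_algebraMap, MvPolynomial.aeval_rename, ← hP2]
    congr 2
    funext o
    rcases o with o | u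
    · rfl
    · show x (ε (ε.symm u)) = x u
      rw [OrderIso.apply_symm_apply]
  have h1 := hwin (fun i => si s * ((N + (ε i : ℕ) : ℕ) : ℤ)) (fun i j hij => ε.injective (Subtype.ext (hinj0 hij)))
    (fun i => by
      have hss : si s * si s = 1 := by
        unfold si
        split_ifs <;> norm_num
      have h2 : si s * (si s * ((N + (ε i : ℕ) : ℕ) : ℤ)) = ((N + (ε i : ℕ) : ℕ) : ℤ) := by
        rw [← mul_assoc, hss, one_mul]
      refine ⟨?_, ?_, fun h3 => ?_⟩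
      · rw [h2]
        push_cast
        omega
      · rw [h2]
        have := hεH i
        push_cast
        omega
      · obtain ⟨h4, h5⟩ := Finset.mem_sdiff.1 (ε i).2
        exact h5 (hS3 (Finset.mem_filter.2 ⟨h4, h3⟩))) v hv (fun i => z (ε i))
    (fun i => ⟨a i, b i, c i, d i, hdet i, hzv i⟩) K (by rw [hK]; infer_instance) (by
      rw [hK, IntermediateField.finrank_bot]
      omega) P' (by
      refine (Pool.Agent.Y118.HP.totalDegree_map_le _ _).trans ((MvPolynomial.totalDegree_rename_le _ _).trans ?_)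
      omega) ((hev fun u => z u).trans hQ0) (fun i => X (ε i))
  exact (hev X).symm.trans h1

/-- the quotient of the period functions -/
noncomputable def rJ (s : Bool) (t : ℕ) : ℂ := pS s t 1 / pS s t 0

/-- the isogenous points in terms of the quotients of the period functions -/
theorem exists_rJ : ∃ T : ℕ, ∀ (s : Bool) (t : ℕ), T ≤ t → ∀ z : ℂ, IsoZ (si s * (t : ℤ)) z →
    ∃ a b c d : ℚ, (c : ℂ) * rJ s t + d ≠ 0 ∧ z * ((c : ℂ) * rJ s t + d) = (a : ℂ) * rJ s t + b := by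
  obtain ⟨T₁, hT₁⟩ := Pool.Agent.Y120.J.all_PT true
  obtain ⟨T₂, hT₂⟩ := Pool.Agent.Y120.J.all_PT false
  obtain ⟨w₁, hw₁⟩ := exists_nat_ge T₁
  obtain ⟨w₂, hw₂⟩ := exists_nat_ge T₂
  refine ⟨max w₁ w₂, fun s t ht z ⟨v, hv, a, b, c, d, hdet, hz⟩ => ?_⟩
  obtain ⟨γ, w, hγ, h0, hw, -, -⟩ : ∃ (γ : Matrix.SpecialLinearGroup (Fin 2) ℤ) (w : UpperHalfPlane), v = γ • w ∧
      pS s t 0 ≠ 0 ∧ (w : ℂ) * pS s t 0 = pS s t 1 ∧ True ∧ True := by
    have hv' : jj v = si s * ((t : ℝ) : ℂ) := by rw [hv]; push_cast; rfl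
    cases s
    · obtain ⟨γ, w, h1, h2, h3, -⟩ := hT₂ t v (hw₂.trans (by exact_mod_cast (le_max_right _ _).trans ht)) hv'
      exact ⟨γ, w, h1, h2, h3, trivial, trivial⟩
    · obtain ⟨γ, w, h1, h2, h3, -⟩ := hT₁ t v (hw₁.trans (by exact_mod_cast (le_max_left _ _).trans ht)) hv'
      exact ⟨γ, w, h1, h2, h3, trivial, trivial⟩
  have hr : rJ s t = w := by
    unfold rJ
    rw [← hw, mul_div_cancel_right₀ _ h0]
  obtain ⟨-, -, -, hvw, hne⟩ := Pool.Agent.Y508.J.t_mob γ w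
  rw [← hγ] at hvw
  have hcv : (c : ℂ) * v + d ≠ 0 := by
    intro h1
    have h2 := congrArg Complex.im h1
    simp only [Complex.add_im, Complex.mul_im, Complex.zero_im, Complex.ratCast_re, Complex.ratCast_im, zero_mul,
      add_zero] at h2
    have h3 : (v : ℂ).im ≠ 0 := v.im_pos.ne'
    have h4 : c = 0 := by
      rcases mul_eq_zero.1 h2 with h5 | h5
      · exact_mod_cast h5
      · exact absurd h5 h3
    rw [h4] at h1
    have h5 : d = 0 := by
      have : (d : ℂ) = 0 := by simpa using h1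
      exact_mod_cast this
    rw [h4, h5] at hdet
    simp at hdet
  have hvB : (v : ℂ) * ((γ 1 0 : ℂ) * w + γ 1 1) = (γ 0 0 : ℂ) * w + γ 0 1 := by
    rw [hvw, div_mul_cancel₀ _ hne]
  have h1 : ((c * γ 0 0 + d * γ 1 0 : ℚ) : ℂ) * w + ((c * γ 0 1 + d * γ 1 1 : ℚ) : ℂ) =
      ((c : ℂ) * v + d) * ((γ 1 0 : ℂ) * w + γ 1 1) := by
    push_cast
    linear_combination (-(c : ℂ)) * hvB
  have h2 : ((a * γ 0 0 + b * γ 1 0 : ℚ) : ℂ) * w + ((a * γ 0 1 + b * γ 1 1 : ℚ) : ℂ) =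
      ((a : ℂ) * v + b) * ((γ 1 0 : ℂ) * w + γ 1 1) := by
    push_cast
    linear_combination (-(a : ℂ)) * hvB
  refine ⟨a * γ 0 0 + b * γ 1 0, a * γ 0 1 + b * γ 1 1, c * γ 0 0 + d * γ 1 0, c * γ 0 1 + d * γ 1 1, ?_, ?_⟩
  · rw [hr, h1]
    exact mul_ne_zero hcv hne
  · rw [hr, h1, h2, hz, ← mul_assoc, div_mul_cancel₀ _ hcv]

/-- clearing denominators -/
theorem clearJ {σ : Type} {δ h : ℕ} {V W : Submodule ℚ ℂ} {lam : ℂ} (hlam : ∀ z ∈ W, lam * z ∈ V ^ (h + 1))
    {Q : MvPolynomial σ ℂ} (hQ : DC δ (W ^ δ) Q) :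
    DC (δ * (h + 1)) (V ^ (δ * (h + 1))) (MvPolynomial.C (lam ^ δ) * Q) := by
  refine ⟨?_, fun s => ?_⟩
  · rw [← MvPolynomial.smul_eq_C_mul]
    exact (MvPolynomial.totalDegree_smul_le _ _).trans (hQ.1.trans (Nat.le_mul_of_pos_right _ (Nat.succ_pos h)))
  · rw [MvPolynomial.coeff_C_mul]
    have h1 : Submodule.span ℚ {lam} * W ≤ V ^ (h + 1) := by
      rw [Submodule.mul_le]
      intro m hm n hn
      obtain ⟨a, rfl⟩ := Submodule.mem_span_singleton.1 hm
      rw [smul_mul_assoc]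
      exact Submodule.smul_mem _ _ (hlam n hn)
    have h2 : (Submodule.span ℚ {lam} * W) ^ δ ≤ V ^ (δ * (h + 1)) := by
      rw [mul_comm δ, pow_mul]
      exact pow_le_pow_left' h1 δ
    rw [mul_pow] at h2
    refine h2 (Submodule.mul_mem_mul ?_ (hQ.2 s))
    exact Submodule.pow_mem_pow _ (Submodule.mem_span_singleton_self _) δ

theorem prod_mem_powJ {ι : Type} {V : Submodule ℚ ℂ} (s : Finset ι) (f : ι → ℂ) (hf : ∀ i ∈ s, f i ∈ V) :
    ∏ i ∈ s, f i ∈ V ^ s.card := by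
  classical
  induction s using Finset.induction_on with
  | empty =>
    rw [Finset.prod_empty, Finset.card_empty, pow_zero]
    exact Submodule.mem_one.2 ⟨1, by simp⟩
  | insert i s hi ih =>
    rw [Finset.prod_insert hi, Finset.card_insert_of_notMem hi, pow_succ']
    exact Submodule.mul_mem_mul (hf i (Finset.mem_insert_self _ _)) (ih fun j hj => hf j (Finset.mem_insert_of_mem hj))

/-- the known numbers -/
def KJ (H : ℕ → ℕ) (c : ℕ → ℂ) (z : ℕ → ℕ → ℂ) (e k : ℕ) : Set ℂ :=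
  {x | x = 2 * Real.pi * Complex.I ∨ (∃ i < e, x = c i) ∨ ∃ i < k, ∃ u, u ≤ H i ∧ x = z i u}

theorem KJ_mono (H : ℕ → ℕ) (c : ℕ → ℂ) (z : ℕ → ℕ → ℂ) {e e' k k' : ℕ} (he : e ≤ e') (hk : k ≤ k') :
    KJ H c z e k ⊆ KJ H c z e' k' := by
  rintro x (h | ⟨i, hi, h⟩ | ⟨i, hi, u, h1, h⟩)
  · exact Or.inl h
  · exact Or.inr (Or.inl ⟨i, by omega, h⟩)
  · exact Or.inr (Or.inr ⟨i, by omega, u, h1, h⟩)

/-- the indices of the known numbers -/
abbrev KJi (H : ℕ → ℕ) (e k : ℕ) : Type := Fin e ⊕ Σ i : Fin k, Fin (H i + 1)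

theorem card_KJi (H : ℕ → ℕ) (e k : ℕ) : Fintype.card (KJi H e k) = e + ∑ i ∈ Finset.range k, (H i + 1) := by
  rw [Fintype.card_sum, Fintype.card_fin, Fintype.card_sigma]
  congr 1
  rw [Finset.sum_range]
  refine Finset.sum_congr rfl fun i _ => ?_
  rw [Fintype.card_fin]

/-- the known numbers with the quotients of the period functions -/
noncomputable def kJf (H : ℕ → ℕ) (c : ℕ → ℂ) (s : ℕ → Bool) (N : ℕ → ℕ) (e k : ℕ) : KJi H e k → ℂ :=
  Sum.elim (fun i => c i) fun x => rJ (s x.1) (N x.1 + x.2)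

/-- **Infinitely many windows.** -/
theorem mainJ (ψ H : ℕ → ℕ) : ∃ τ : ℕ → ℕ, ∀ N : ℕ → ℕ, (∀ j, τ j ≤ N j) → ∀ (s : ℕ → Bool) (c : ℕ → ℂ),
    ∃ S : ℕ → Finset ℕ, (∀ j, S j ⊆ Finset.range (H j + 1)) ∧
      (∀ j, (S j).card ≤ ∑ i ∈ Finset.range (j + 1), ψ i + ∑ i ∈ Finset.range j, (H i + 1) + 2) ∧
      ∀ z : ℕ → ℕ → ℂ, (∀ j u, u ≤ H j → IsoZ (si (s j) * ((N j + u : ℕ) : ℤ)) (z j u)) →
        ∃ δ : ℕ → ℕ, (∀ k j, k ≤ j → 2 * (ψ k * max 1 (ψ k)) ≤ δ j) ∧ ∃ W : ℕ → Submodule ℚ ℂ,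
          (∀ k, KJ H c z (ψ k) k ⊆ W k) ∧
            Asm (GU fun j => {u // u ∈ Finset.range (H j + 1) \ S j}) (fun x => z x.1 x.2) W δ Set.univ := by
  classical
  set Φ : ℕ → ℕ := fun j => ∑ i ∈ Finset.range (j + 1), ψ i with hΦ
  have hΦm : Monotone Φ := fun i j hij => Finset.sum_le_sum_of_subset (Finset.range_mono (by omega))
  have hΦψ : ∀ k, ψ k ≤ Φ k := fun k => Finset.single_le_sum (f := ψ) (fun _ _ => Nat.zero_le _)
    (Finset.mem_range.2 (Nat.lt_succ_self k))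
  set δ : ℕ → ℕ := fun j => ∑ i ∈ Finset.range (j + 1), 2 * (ψ i * max 1 (ψ i)) with hδ
  have hδψ : ∀ k j, k ≤ j → 2 * (ψ k * max 1 (ψ k)) ≤ δ j := fun k j hkj =>
    Finset.single_le_sum (f := fun i => 2 * (ψ i * max 1 (ψ i))) (fun _ _ => Nat.zero_le _)
      (Finset.mem_range.2 (Nat.lt_succ_of_le hkj))
  -- the number of the points of the lower windows
  set h : ℕ → ℕ := fun j => Fintype.card (Σ i : Fin j, Fin (H i + 1)) with hh
  obtain ⟨T, hT⟩ := exists_rJ
  choose τ hτ using fun j => stageJ (Fintype.card (KJi H (Φ j) j)) (H j) (δ j * (h j + 1))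
  refine ⟨fun j => max (τ j) T, fun N hN s c => ?_⟩
  set ε : ∀ j, Fin (Fintype.card (KJi H (Φ j) j)) ≃ KJi H (Φ j) j := fun j => (Fintype.equivFin _).symm with hε
  choose S hS1 hS2 hS3 using fun j => hτ j (N j) ((le_max_left _ _).trans (hN j)) (kJf H c s N (Φ j) j ∘ ε j) (s j)
  refine ⟨S, hS1, fun j => ?_, fun z hz => ⟨δ, hδψ, fun k => Submodule.span ℚ (insert 1 (KJ H c z (Φ k) k)),
    fun k x hx => ?_, ?_⟩⟩
  · have h1 := hS2 j
    rw [card_KJi] at h1
    exact h1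
  · exact Submodule.subset_span (Set.mem_insert_of_mem _ (KJ_mono H c z (hΦψ k) le_rfl hx))
  constructor
  · intro j
    exact Submodule.subset_span (Set.mem_insert _ _)
  · intro j
    exact Submodule.subset_span (Set.mem_insert_of_mem _ (Or.inl rfl))
  · intro i j hij
    exact Submodule.span_mono (Set.insert_subset_insert (KJ_mono H c z (hΦm hij) hij))
  · rintro j k hjk ⟨u, hu⟩
    have h1 := (Finset.mem_sdiff.1 hu).1
    rw [Finset.mem_range] at h1
    exact Submodule.subset_span (Set.mem_insert_of_mem _ (Or.inr (Or.inr ⟨j, hjk, u, by omega, rfl⟩)))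
  · intro j
    exact Set.mem_univ _
  intro j _ Q hQ hQ0 X _
  -- the matrices
  have hm : ∀ x : Σ i : Fin j, Fin (H i + 1), ∃ a b c' d : ℚ, (c' : ℂ) * rJ (s x.1) (N x.1 + x.2) + d ≠ 0 ∧
      z x.1 x.2 * ((c' : ℂ) * rJ (s x.1) (N x.1 + x.2) + d) = (a : ℂ) * rJ (s x.1) (N x.1 + x.2) + b := fun x =>
    hT (s x.1) (N x.1 + x.2) (((le_max_right _ _).trans (hN x.1)).trans (Nat.le_add_right _ _)) _
      (hz x.1 x.2 (Nat.lt_succ_iff.1 x.2.2))
  choose ma mb mc md hm1 hm2 using hm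
  set V : Submodule ℚ ℂ := Submodule.span ℚ (insert 1 (Set.range (wo (kJf H c s N (Φ j) j ∘ ε j)))) with hV
  have hV1 : (1 : ℂ) ∈ V := Submodule.subset_span (Set.mem_insert _ _)
  have hVt : (2 * Real.pi * Complex.I : ℂ) ∈ V := Submodule.subset_span (Set.mem_insert_of_mem _ ⟨none, rfl⟩)
  have hVk : ∀ x, kJf H c s N (Φ j) j x ∈ V := fun x =>
    Submodule.subset_span (Set.mem_insert_of_mem _ ⟨some ((ε j).symm x), by
      show (kJf H c s N (Φ j) j ∘ ε j) ((ε j).symm x) = _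
      rw [Function.comp_apply, Equiv.apply_symm_apply]⟩)
  have hVr : ∀ x : Σ i : Fin j, Fin (H i + 1), rJ (s x.1) (N x.1 + x.2) ∈ V := fun x => hVk (Sum.inr x)
  have hq : ∀ (a : ℚ) (y : ℂ), y ∈ V → (a : ℂ) * y ∈ V := fun a y hy => by
    have h1 : (a : ℂ) * y = a • y := by rw [Algebra.smul_def]; rfl
    rw [h1]
    exact V.smul_mem a hy
  have hq1 : ∀ a : ℚ, (a : ℂ) ∈ V := fun a => by
    have h1 := hq a 1 hV1
    rwa [mul_one] at h1
  set D : (Σ i : Fin j, Fin (H i + 1)) → ℂ := fun x => (mc x : ℂ) * rJ (s x.1) (N x.1 + x.2) + md x with hD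
  have hDV : ∀ x, D x ∈ V := fun x => V.add_mem (hq _ _ (hVr x)) (hq1 _)
  set lam : ℂ := ∏ x, D x with hlam
  have hlam0 : lam ≠ 0 := Finset.prod_ne_zero_iff.2 fun x _ => hm1 x
  have hlamV : lam ∈ V ^ h j := by
    have h1 := prod_mem_powJ Finset.univ D fun x _ => hDV x
    rwa [Finset.card_univ] at h1
  have hcl : ∀ y ∈ Submodule.span ℚ (insert 1 (KJ H c z (Φ j) j)), lam * y ∈ V ^ (h j + 1) := by
    intro y hy
    induction hy using Submodule.span_induction with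
    | mem y hy =>
      rcases hy with rfl | rfl | ⟨i, hi, rfl⟩ | ⟨i, hi, u, hu, rfl⟩
      · rw [pow_succ]
        exact Submodule.mul_mem_mul hlamV hV1
      · rw [pow_succ]
        exact Submodule.mul_mem_mul hlamV hVt
      · rw [pow_succ]
        exact Submodule.mul_mem_mul hlamV (hVk (Sum.inl ⟨i, hi⟩))
      · set x : Σ i : Fin j, Fin (H i + 1) := ⟨⟨i, hi⟩, ⟨u, Nat.lt_succ_of_le hu⟩⟩ with hx
        have h1 : lam * z i u = ((ma x : ℂ) * rJ (s x.1) (N x.1 + x.2) + mb x) * ∏ y ∈ Finset.univ.erase x, D y := by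
          rw [hlam, ← Finset.mul_prod_erase Finset.univ D (Finset.mem_univ x), ← hm2 x]
          show D x * _ * z i u = z i u * D x * _
          ring
        rw [h1, pow_succ']
        have h2 := prod_mem_powJ (Finset.univ.erase x) D fun x _ => hDV x
        refine Submodule.mul_mem_mul (V.add_mem (hq _ _ (hVr x)) (hq1 _)) (pow_mono_sub hV1 ?_ h2)
        rw [Finset.card_erase_of_mem (Finset.mem_univ x), Finset.card_univ]
        exact Nat.sub_le _ _
    | zero => rw [mul_zero]; exact Submodule.zero_mem _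
    | add y y' _ _ h1 h2 => rw [mul_add]; exact Submodule.add_mem _ h1 h2
    | smul a y _ h1 => rw [mul_smul_comm]; exact Submodule.smul_mem _ _ h1
  have h1 := clearJ hcl hQ
  have h2 := hS3 j (z j) (fun u hu => hz j u hu) _ h1 (by rw [map_mul, hQ0, mul_zero]) X
  rw [map_mul, MvPolynomial.aeval_C] at h2
  exact (mul_eq_zero.1 h2).resolve_left (pow_ne_zero _ hlam0)

end Pool.Agent.L5helper73.Inf
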