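import Pool.Agent.L5helper73.Inf.W
import Pool.Agent.L5helper73.Inf.H
import Pool.Agent.L5helper73.Inf.J
import Pool.Agent.Y916.Al.WinP

/-!
# Logarithms of integers in windows: infinitely many windows
-/

set_option autoImplicit false

namespace Pool.Agent.L5helper73.Inf

/-- one window, `k` integers -/
theorem logWin (q k D δ : ℕ) : ∃ E : ℕ, ∀ N H : ℕ, (H + 2) ^ E ≤ N → ∀ w : Fin q → ℂ, ∃ S : Finset ℕ, S.card ≤ q + 1 ∧
    ∀ p : Fin k → ℕ, Function.Injective p → (∀ i, N < p i ∧ p i ≤ N + H ∧ p i ∉ S) →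
    ∀ K : IntermediateField ℚ ℂ, FiniteDimensional ℚ K → Module.finrank ℚ K ≤ D →
    ∀ P : MvPolynomial (Fin q ⊕ Fin k) K, P.totalDegree ≤ δ →
      MvPolynomial.aeval (Sum.elim w fun i => ((Real.log (p i) : ℝ) : ℂ)) P = 0 →
      MvPolynomial.aeval (Sum.elim (fun j => MvPolynomial.C (w j)) MvPolynomial.X) P = (0 : MvPolynomial (Fin k) ℂ) := by
  classical
  obtain ⟨E, hE1, hE⟩ := Pool.Agent.Y916.Al.windowP k (D + 1) δ (q + 1) 1 1 1 1
  refine ⟨E, fun N H hN w => ?_⟩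
  have hN1 : 1 ≤ N := (Nat.one_le_pow _ _ (by omega)).trans hN
  have hNR : (0 : ℝ) < N := by exact_mod_cast hN1
  have hNC : (N : ℂ) ≠ 0 := by exact_mod_cast (show N ≠ 0 by omega)
  have hnorm : ‖(N : ℂ)‖ = N := Complex.norm_natCast N
  have hHt : Pool.Agent.Y916.Al.Ht 1 1 (N : ℂ) := by
    refine ⟨Polynomial.X - Polynomial.C (N : ℤ), Polynomial.X_sub_C_ne_zero _, ?_, fun j => ?_, ?_⟩
    · rw [Polynomial.natDegree_X_sub_C]
    · rw [hnorm, pow_one, Polynomial.coeff_sub, Polynomial.coeff_X, Polynomial.coeff_C]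
      have h1 : (1 : ℝ) ≤ N := by exact_mod_cast hN1
      split_ifs with h2 h3 h3
      · omega
      · simpa using h1
      · simp
      · simp
    · rw [map_sub, Polynomial.aeval_X, Polynomial.aeval_C]
      simp
  -- the constants `w` and `log N`
  obtain ⟨S, hS, h⟩ := hE H (N : ℂ) (by
    rw [hnorm]
    exact_mod_cast hN) hHt (Option (Fin q)) (fun o => o.elim ((Real.log N : ℝ) : ℂ) w) Finset.univ
    (by rw [Finset.card_univ, Fintype.card_option, Fintype.card_fin]) (Pool.Agent.Y916.Om.Dom.univ _)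
  -- the exceptional numbers
  set S' : Finset ℕ := (Finset.Ioc N (N + H)).filter fun n => ((n : ℂ) - N) ∈ S with hS'
  refine ⟨S', ?_, ?_⟩
  · refine le_trans ?_ hS
    refine Finset.card_le_card_of_injOn (fun n => (n : ℂ) - N) (fun n hn => ?_) (fun a _ b _ hab => ?_)
    · have h1 := Finset.mem_coe.1 hn
      rw [hS', Finset.mem_filter] at h1
      exact h1.2
    · have h1 : (a : ℂ) = b := sub_left_injective hab
      exact_mod_cast h1
  intro p hp hpS K hK hKD P hP hP0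
  have hβ : ∀ i, ((p i : ℂ) - N) ∉ S ∧ ((p i : ℂ) - N) ≠ 0 ∧ Pool.Agent.Y916.Ari.Adm (D + 1) H ((p i : ℂ) - N) := by
    intro i
    obtain ⟨h1, h2, h3⟩ := hpS i
    refine ⟨fun h4 => h3 ?_, ?_, ?_⟩
    · rw [hS', Finset.mem_filter, Finset.mem_Ioc]
      exact ⟨⟨h1, h2⟩, h4⟩
    · rw [sub_ne_zero]
      exact_mod_cast h1.ne'
    · refine ⟨Polynomial.X - Polynomial.C ((p i : ℤ) - N), Polynomial.X_sub_C_ne_zero _, ?_, fun j => ?_, ?_⟩
      · rw [Polynomial.natDegree_X_sub_C]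
        omega
      · rw [Polynomial.coeff_sub, Polynomial.coeff_X, Polynomial.coeff_C]
        have h4 : (1 : ℤ) ≤ H := by
          have : 1 ≤ H := by omega
          exact_mod_cast this
        split_ifs with h5 h6 h6
        · omega
        · rw [sub_zero, abs_one]
          exact h4
        · rw [zero_sub, abs_neg, abs_of_nonneg (by
            have : (N : ℤ) < p i := by exact_mod_cast h1
            omega)]
          have : (p i : ℤ) ≤ N + H := by exact_mod_cast h2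
          omega
        · rw [sub_zero, abs_zero]
          omega
      · rw [map_sub, Polynomial.aeval_X, Polynomial.aeval_C]
        simp
  have hinj : Function.Injective fun i => ((p i : ℂ) - N) := by
    intro a b hab
    have h1 : (p a : ℂ) = p b := sub_left_injective hab
    exact hp (by exact_mod_cast h1)
  have hlog : ∀ i, ((Real.log (p i) : ℝ) : ℂ) - (1 : K) * Complex.log (1 + ((p i : ℂ) - N) / N) ∈
      Submodule.span K (insert 1 (Set.range fun o : Option (Fin q) => o.elim ((Real.log N : ℝ) : ℂ) w)) := by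
    intro i
    have h1 : (0 : ℝ) < p i := by
      have := (hpS i).1
      exact_mod_cast (show 0 < p i by omega)
    have h2 : (1 : ℂ) + ((p i : ℂ) - N) / N = (((p i : ℝ) / N : ℝ) : ℂ) := by
      push_cast
      field_simp
      ring
    have h3 : ((Real.log (p i) : ℝ) : ℂ) - (1 : K) * Complex.log (1 + ((p i : ℂ) - N) / N) = ((Real.log N : ℝ) : ℂ) := by
      rw [h2, ← Complex.ofReal_log (div_pos h1 hNR).le, Real.log_div h1.ne' hNR.ne']
      push_cast
      ring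
    rw [h3]
    exact Submodule.subset_span (Or.inr ⟨none, rfl⟩)
  -- the relation
  have hK' : Module.finrank ℚ K ≤ D + 1 := hKD.trans (Nat.le_succ D)
  have h1 := h (fun i => (p i : ℂ) - N) hinj hβ K hK hK' (fun i => ((Real.log (p i) : ℝ) : ℂ))
    (fun i => ⟨1, one_ne_zero, hlog i⟩) (MvPolynomial.rename (Sum.map some id) P)
    ((MvPolynomial.totalDegree_rename_le _ _).trans hP) (by
      rw [MvPolynomial.aeval_rename, ← hP0]
      congr 2
      funext x
      rcases x with x | x <;> rfl)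
  rw [MvPolynomial.aeval_rename] at h1
  rw [← h1]
  congr 2
  funext x
  rcases x with x | x <;> rfl

open Pool.Agent.Y113

/-- the integers of a window which are not exceptional -/
abbrev Wn (N H : ℕ) (S : Finset ℕ) : Type := {n // n ∈ Finset.Ioc N (N + H) \ S}

/-- one window, all integers -/
theorem stageP (q H δ : ℕ) : ∃ τ : ℕ, ∀ N, τ ≤ N → ∀ w : Fin q → ℂ, ∃ S : Finset ℕ,
    S ⊆ Finset.Ioc N (N + H) ∧ S.card ≤ q + 1 ∧
      ∀ Q : MvPolynomial (Wn N H S) ℂ, DC δ ((Submodule.span ℚ (insert 1 (Set.range w))) ^ δ) Q →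
        MvPolynomial.aeval (fun n : Wn N H S => ((Real.log (n : ℕ) : ℝ) : ℂ)) Q = 0 →
          ∀ X : Wn N H S → ℂ, MvPolynomial.aeval X Q = 0 := by
  classical
  obtain ⟨E, hE⟩ := logWin q (H - (q + 1)) 1 (2 * δ)
  refine ⟨(H + 2) ^ E, fun N hN w => ?_⟩
  rcases Nat.lt_or_ge (q + 1) H with hlt | hge
  swap
  · refine ⟨Finset.Ioc N (N + H), subset_rfl, by rw [Nat.card_Ioc]; omega, fun Q hQ hQ0 X => ?_⟩
    have h1 : IsEmpty (Wn N H (Finset.Ioc N (N + H))) := ⟨fun u => by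
      have := u.2
      simp at this⟩
    rw [← hQ0]
    congr 2
    exact Subsingleton.elim _ _
  obtain ⟨S₀, hS₀, hwin⟩ := hE N H hN w
  obtain ⟨S, hS3, hS4, hS5⟩ := Finset.exists_subsuperset_card_eq
    (Finset.inter_subset_right (s₁ := S₀) (s₂ := Finset.Ioc N (N + H)))
    ((Finset.card_le_card Finset.inter_subset_left).trans hS₀) (by rw [Nat.card_Ioc]; omega)
  refine ⟨S, hS4, hS5.le, fun Q hQ hQ0 X => ?_⟩
  have hEc : (Finset.Ioc N (N + H) \ S).card = H - (q + 1) := by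
    rw [Finset.card_sdiff_of_subset hS4, hS5, Nat.card_Ioc]
    omega
  set ε : Fin (H - (q + 1)) ≃o (Finset.Ioc N (N + H) \ S : Finset ℕ) :=
    (Finset.Ioc N (N + H) \ S).orderIsoOfFin hEc with hε
  obtain ⟨P, hP1, hP2⟩ := lift_DC _ δ hQ
  set K : IntermediateField ℚ ℂ := ⊥ with hK
  set P' : MvPolynomial (Fin q ⊕ Fin (H - (q + 1))) K :=
    (MvPolynomial.rename (Sum.map id ε.symm) P).map (algebraMap ℚ K) with hP'
  have hev : ∀ x : Wn N H S → ℂ,
      MvPolynomial.aeval (Sum.elim w fun i => x (ε i)) P' = MvPolynomial.aeval x Q := by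
    intro x
    rw [hP', MvPolynomial.aeval_map_algebraMap, MvPolynomial.aeval_rename, ← hP2]
    congr 2
    funext o
    rcases o with o | u
    · rfl
    · show x (ε (ε.symm u)) = x u
      rw [OrderIso.apply_symm_apply]
  have h1 := hwin (fun i => ε i) (fun i j hij => ε.injective (Subtype.ext hij))
    (fun i => by
      obtain ⟨h4, h5⟩ := Finset.mem_sdiff.1 (ε i).2
      obtain ⟨h6, h7⟩ := Finset.mem_Ioc.1 h4
      exact ⟨h6, h7, fun h3 => h5 (hS3 (Finset.mem_inter.2 ⟨h3, h4⟩))⟩)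
    K (by rw [hK]; infer_instance) (by rw [hK, IntermediateField.finrank_bot]) P' (by
      refine (Pool.Agent.Y118.HP.totalDegree_map_le _ _).trans ((MvPolynomial.totalDegree_rename_le _ _).trans ?_)
      exact hP1) ((hev fun n => ((Real.log (n : ℕ) : ℝ) : ℂ)).trans hQ0)
  have h2 := congrArg (MvPolynomial.aeval fun i => X (ε i)) h1
  rw [map_zero] at h2
  have h3 := MvPolynomial.comp_aeval_apply (R := K)
    (f := (Sum.elim (fun j => MvPolynomial.C (w j)) MvPolynomial.X : Fin q ⊕ Fin (H - (q + 1)) → MvPolynomial (Fin (H - (q + 1))) ℂ))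
    ((MvPolynomial.aeval (fun i => X (ε i)) : MvPolynomial (Fin (H - (q + 1))) ℂ →ₐ[ℂ] ℂ).restrictScalars K) P'
  have h4 : (fun i => ((MvPolynomial.aeval (fun i => X (ε i)) : MvPolynomial (Fin (H - (q + 1))) ℂ →ₐ[ℂ] ℂ).restrictScalars K)
      ((Sum.elim (fun j => MvPolynomial.C (w j)) MvPolynomial.X :
        Fin q ⊕ Fin (H - (q + 1)) → MvPolynomial (Fin (H - (q + 1))) ℂ) i)) = Sum.elim w fun i => X (ε i) := by
    funext o
    rcases o with o | u
    · show MvPolynomial.aeval _ (MvPolynomial.C _) = w o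
      rw [MvPolynomial.aeval_C]
      rfl
    · show MvPolynomial.aeval _ (MvPolynomial.X _) = X (ε u)
      rw [MvPolynomial.aeval_X]
  rw [h4, hev] at h3
  exact h3.symm.trans h2

/-- the known numbers -/
def KP (N H : ℕ → ℕ) (c : ℕ → ℂ) (e k : ℕ) : Set ℂ :=
  {x | x = 2 * Real.pi * Complex.I ∨ (∃ i < e, x = c i) ∨ ∃ i < k, ∃ n, N i < n ∧ n ≤ N i + H i ∧ x = ((Real.log (n : ℕ) : ℝ) : ℂ)}

theorem KP_mono (N H : ℕ → ℕ) (c : ℕ → ℂ) {e e' k k' : ℕ} (he : e ≤ e') (hk : k ≤ k') : KP N H c e k ⊆ KP N H c e' k' := by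
  rintro x (h | ⟨i, hi, h⟩ | ⟨i, hi, u, h1, h⟩)
  · exact Or.inl h
  · exact Or.inr (Or.inl ⟨i, by omega, h⟩)
  · exact Or.inr (Or.inr ⟨i, by omega, u, h1, h⟩)

/-- the indices of the known numbers -/
abbrev KPi (H : ℕ → ℕ) (e k : ℕ) : Type := Option (Fin e) ⊕ Σ i : Fin k, Fin (H i)

theorem card_KPi (H : ℕ → ℕ) (e k : ℕ) : Fintype.card (KPi H e k) = e + 1 + ∑ i ∈ Finset.range k, H i := by
  rw [Fintype.card_sum, Fintype.card_option, Fintype.card_fin, Fintype.card_sigma]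
  congr 1
  rw [Finset.sum_range]
  refine Finset.sum_congr rfl fun i _ => ?_
  rw [Fintype.card_fin]

/-- the known numbers -/
noncomputable def kPf (N H : ℕ → ℕ) (c : ℕ → ℂ) (e k : ℕ) : KPi H e k → ℂ :=
  Sum.elim (fun o => o.elim (2 * Real.pi * Complex.I) fun i => c i)
    fun x => ((Real.log ((N x.1 + x.2 + 1 : ℕ) : ℝ) : ℝ) : ℂ)

theorem kPf_range (N H : ℕ → ℕ) (c : ℕ → ℂ) (e k : ℕ) {q : ℕ} (ε : Fin q ≃ KPi H e k) :
    (Set.range (kPf N H c e k ∘ ε)) = KP N H c e k := by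
  ext z
  constructor
  · rintro ⟨o, rfl⟩
    show kPf N H c e k (ε o) ∈ _
    rcases ε o with (_ | i) | ⟨i, u⟩
    · exact Or.inl rfl
    · exact Or.inr (Or.inl ⟨i, i.2, rfl⟩)
    · refine Or.inr (Or.inr ⟨i, i.2, N i + u + 1, by omega, ?_, rfl⟩)
      have := u.2
      omega
  · rintro (h | ⟨i, hi, h⟩ | ⟨i, hi, n, h1, h2, h⟩)
    · refine ⟨ε.symm (Sum.inl none), ?_⟩
      show kPf N H c e k (ε (ε.symm (Sum.inl none))) = z
      rw [Equiv.apply_symm_apply]
      exact h.symm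
    · refine ⟨ε.symm (Sum.inl (some ⟨i, hi⟩)), ?_⟩
      show kPf N H c e k (ε (ε.symm (Sum.inl (some ⟨i, hi⟩)))) = z
      rw [Equiv.apply_symm_apply]
      exact h.symm
    · refine ⟨ε.symm (Sum.inr ⟨⟨i, hi⟩, ⟨n - N i - 1, by simp only; omega⟩⟩), ?_⟩
      show kPf N H c e k (ε (ε.symm (Sum.inr ⟨⟨i, hi⟩, ⟨n - N i - 1, _⟩⟩))) = z
      rw [Equiv.apply_symm_apply, h]
      show ((Real.log ((N i + (n - N i - 1) + 1 : ℕ) : ℝ) : ℝ) : ℂ) = _
      have h3 : N i + (n - N i - 1) + 1 = n := by omega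
      rw [h3]

/-- **Infinitely many windows.** -/
theorem mainP (ψ H : ℕ → ℕ) : ∃ τ : ℕ → ℕ, ∀ N : ℕ → ℕ, (∀ j, τ j ≤ N j) → ∀ c : ℕ → ℂ,
    ∃ S : ℕ → Finset ℕ, (∀ j, S j ⊆ Finset.Ioc (N j) (N j + H j)) ∧
      (∀ j, (S j).card ≤ ∑ i ∈ Finset.range (j + 1), ψ i + ∑ i ∈ Finset.range j, H i + 2) ∧
        ∃ δ : ℕ → ℕ, (∀ k j, k ≤ j → 2 * (ψ k * max 1 (ψ k)) ≤ δ j) ∧ ∃ W : ℕ → Submodule ℚ ℂ,
          (∀ k, KP N H c (ψ k) k ⊆ W k) ∧
            Asm (GU fun j => Wn (N j) (H j) (S j)) (fun x => ((Real.log ((x.2 : ℕ) : ℝ) : ℝ) : ℂ)) W δ Set.univ := by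
  classical
  set Φ : ℕ → ℕ := fun j => ∑ i ∈ Finset.range (j + 1), ψ i with hΦ
  have hΦm : Monotone Φ := fun i j hij => Finset.sum_le_sum_of_subset (Finset.range_mono (by omega))
  have hΦψ : ∀ k, ψ k ≤ Φ k := fun k => Finset.single_le_sum (f := ψ) (fun _ _ => Nat.zero_le _)
    (Finset.mem_range.2 (Nat.lt_succ_self k))
  set δ : ℕ → ℕ := fun j => ∑ i ∈ Finset.range (j + 1), 2 * (ψ i * max 1 (ψ i)) with hδ
  have hδψ : ∀ k j, k ≤ j → 2 * (ψ k * max 1 (ψ k)) ≤ δ j := fun k j hkj =>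
    Finset.single_le_sum (f := fun i => 2 * (ψ i * max 1 (ψ i))) (fun _ _ => Nat.zero_le _)
      (Finset.mem_range.2 (Nat.lt_succ_of_le hkj))
  choose τ hτ using fun j => stageP (Fintype.card (KPi H (Φ j) j)) (H j) (δ j)
  refine ⟨τ, fun N hN c => ?_⟩
  set ε : ∀ j, Fin (Fintype.card (KPi H (Φ j) j)) ≃ KPi H (Φ j) j := fun j => (Fintype.equivFin _).symm with hε
  choose S hS1 hS2 hS3 using fun j => hτ j (N j) (hN j) (kPf N H c (Φ j) j ∘ ε j)
  refine ⟨S, hS1, fun j => ?_, δ, hδψ, fun k => Submodule.span ℚ (insert 1 (KP N H c (Φ k) k)), fun k x hx => ?_, ?_⟩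
  · have h1 := hS2 j
    rw [card_KPi] at h1
    have h2 : Φ j = ∑ i ∈ Finset.range (j + 1), ψ i := rfl
    omega
  · exact Submodule.subset_span (Set.mem_insert_of_mem _ (KP_mono N H c (hΦψ k) le_rfl hx))
  constructor
  · intro j
    exact Submodule.subset_span (Set.mem_insert _ _)
  · intro j
    exact Submodule.subset_span (Set.mem_insert_of_mem _ (Or.inl rfl))
  · intro i j hij
    exact Submodule.span_mono (Set.insert_subset_insert (KP_mono N H c (hΦm hij) hij))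
  · rintro j k hjk ⟨n, hn⟩
    have h1 := (Finset.mem_sdiff.1 hn).1
    rw [Finset.mem_Ioc] at h1
    exact Submodule.subset_span (Set.mem_insert_of_mem _ (Or.inr (Or.inr ⟨j, hjk, n, h1.1, h1.2, rfl⟩)))
  · intro j
    exact Set.mem_univ _
  · intro j _ Q hQ hQ0 X _
    refine hS3 j Q ?_ hQ0 X
    rw [kPf_range]
    exact hQ

end Pool.Agent.L5helper73.Inf
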