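import Pool.Agent.L5helper73.Inf.W

/-!
# Windows of hyperelliptic curves: one window
-/

set_option autoImplicit false

open Matrix Polynomial NumberField

namespace Pool.Agent.L5helper73.Inf

open Pool.Agent.Y118.HP Pool.Agent.Y118.HG Pool.Agent.Y113 Pool.Agent.R351.GD.Hy

variable {n : ℕ}

open Classical in
/-- the periods of the curves with numbers in `E` -/
noncomputable def pWi (a : Fin n → ℝ) (m : Fin (n + 1)) (tt : ℕ → ℕ) (E : Set ℕ) (x : IW n) : ℂ :=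
  if x.1 ∈ E then CM a m (1 / (tt x.1 : ℝ)) x.2.1 x.2.2 else 0

theorem pWi_mem (hn : Even n) {a : Fin n → ℝ} (ha : StrictMono a) {m : Fin (n + 1)} {f : ℚ[X]}
    (hf : f.map (algebraMap ℚ ℝ) = ∏ i, (X - C (a i))) {tt : ℕ → ℕ} {E : Set ℕ}
    (hg : ∀ u ∈ E, InGap a m (1 / (tt u : ℝ))) :
    pWi a m tt E ∈ FW E (fun u => Qt (n := n) f (tt u)) (2 * Real.pi * Complex.I) := by
  intro u
  unfold Fs pWi
  by_cases h : u ∈ E
  · rw [if_pos h]
    simp only [if_pos h]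
    have hcast : (((1 / (tt u : ℚ) : ℚ)) : ℝ) = 1 / (tt u : ℝ) := by push_cast; rfl
    have h1 := hg u h
    rw [← hcast] at h1
    have h2 := CM_mem hn ha hf h1
    rw [← hcast]
    exact h2
  · rw [if_neg h]
    simp only [if_neg h]
    rfl

/-- relations with rational coefficients in `2πi` and `w` move along the torsor -/
theorem rgw_use {q N : ℕ} {w : Fin q → ℂ} {cc : Option (Fin N × Fin n × Fin n) → ℂ} {F : Fin N → ℚ[X]}
    {c : Fin N → Matrix (Fin n) (Fin n) ℂ} {D d : ℕ} (hD : 1 ≤ D) (hR : RGw w cc F c D d) {lam : ℂ}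
    (hcc : cc none = lam) (hlam : lam = 2 * Real.pi * Complex.I)
    {P : MvPolynomial (Option (Fin q) ⊕ (Fin N × Fin n × Fin n)) ℚ} (hP : P.totalDegree ≤ d)
    (h0 : MvPolynomial.aeval (Sum.elim (fun o : Option (Fin q) => o.elim lam w) fun y => c y.1 y.2.1 y.2.2) P = 0)
    {x : (Fin N → Matrix (Fin n) (Fin n) ℂ) × ℂ} (hx : x ∈ TorF (n := n) F) (h2 : x.2 = lam) :
    MvPolynomial.aeval (Sum.elim (fun o : Option (Fin q) => o.elim lam w) fun y => x.1 y.1 y.2.1 y.2.2) P = 0 := by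
  obtain ⟨ρ, hρ⟩ : ∃ ρ : Option (Fin q) ⊕ (Fin N × Fin n × Fin n) →
      (Fin q ⊕ Option (Fin N × Fin n × Fin n)) ⊕ Fin N × Fin n × Fin n, ∀ z : Fin N × Fin n × Fin n → ℂ,
      (Sum.elim (Sum.elim w cc) z) ∘ ρ = Sum.elim (fun o : Option (Fin q) => o.elim lam w) z := by
    refine ⟨Sum.map (fun o => o.elim (Sum.inr none) Sum.inl) id, fun z => ?_⟩
    funext o
    rcases o with (_ | o) | o
    · exact hcc
    · rfl
    · rfl
  have hev : ∀ z : Fin N × Fin n × Fin n → ℂ,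
      ((MvPolynomial.rename ρ P).map (algebraMap ℚ ℂ)).eval (Sum.elim (Sum.elim w cc) z) =
      MvPolynomial.aeval (Sum.elim (fun o : Option (Fin q) => o.elim lam w) z) P := by
    intro z
    rw [MvPolynomial.map_rename, MvPolynomial.eval_rename, ← MvPolynomial.aeval_eq_eval,
      MvPolynomial.aeval_map_algebraMap, hρ]
  have h3 := hR ℚ (algebraMap ℚ ℂ) (MvPolynomial.rename ρ P) (by rw [Module.finrank_self]; exact hD)
    ((MvPolynomial.totalDegree_rename_le _ _).trans hP) ((hev _).trans h0) x hx (h2.trans hlam)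
  exact (hev _).symm.trans h3

/-- the inner form of one window -/
theorem window_inner {a : Fin n → ℝ} {f : ℚ[X]} {m : Fin (n + 1)} {q δ k : ℕ} {w : Fin q → ℂ} {tt : ℕ → ℕ}
    {E : Finset ℕ} (ε : Fin k ≃o E)
    (hR : RGw w (pt (fun _ : Fin k => Matrix.of (cper (er a m 0))) (2 * Real.pi * Complex.I))
      (fun j => f * (X - C (1 / (tt (ε j) : ℚ)))) (fun j => Matrix.of (cper (er a m (1 / (tt (ε j) : ℝ)))))
      (2 * δ + 1) (2 * δ + 1))
    {Q : MvPolynomial (IW n) ℂ}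
    (hQ : DC δ ((Submodule.span ℚ (insert 1 (Set.range fun o : Option (Fin q) => o.elim (2 * Real.pi * Complex.I) w)))
            ^ δ) Q)
    (hQ0 : MvPolynomial.aeval (pWi a m tt ↑E) Q = 0) {Y : IW n → ℂ}
    (hY : Y ∈ FW (↑E : Set ℕ) (fun u => Qt (n := n) f (tt u)) (2 * Real.pi * Complex.I)) :
    MvPolynomial.aeval Y Q = 0 := by
  classical
  set L : IW n → MvPolynomial (Fin k × Fin n × Fin n) ℂ := fun x =>
    if h : x.1 ∈ E then MvPolynomial.X (ε.symm ⟨x.1, h⟩, x.2.1, x.2.2) else 0 with hL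
  have hLe : ∀ Z : IW n → ℂ, (∀ x : IW n, x.1 ∉ E → Z x = 0) →
      MvPolynomial.aeval (fun y : Fin k × Fin n × Fin n => Z ⟨ε y.1, y.2⟩) (MvPolynomial.aeval L Q) =
        MvPolynomial.aeval Z Q := by
    intro Z hZ
    have h6 := MvPolynomial.comp_aeval_apply (f := L)
      (MvPolynomial.aeval (fun y : Fin k × Fin n × Fin n => Z ⟨ε y.1, y.2⟩) :
        MvPolynomial (Fin k × Fin n × Fin n) ℂ →ₐ[ℂ] ℂ) Q
    rw [h6]
    congr 2
    funext x
    simp only [hL]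
    by_cases h : x.1 ∈ E
    · rw [dif_pos h, MvPolynomial.aeval_X]
      simp only
      rw [OrderIso.apply_symm_apply]
    · rw [dif_neg h, map_zero, hZ x h]
  have hD : DC δ ((Submodule.span ℚ (insert 1 (Set.range fun o : Option (Fin q) =>
      o.elim (2 * Real.pi * Complex.I) w))) ^ δ) (MvPolynomial.aeval L Q) := by
    have h6 := DC_subst (W := (1 : Submodule ℚ ℂ)) (Submodule.mem_one.2 ⟨1, by simp⟩) L (fun x => by
      simp only [hL]
      split_ifs
      · exact DC_X (Submodule.mem_one.2 ⟨1, by simp⟩) _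
      · exact ⟨by simp, fun s => by rw [MvPolynomial.coeff_zero]; exact Submodule.zero_mem _⟩) hQ
    rwa [one_pow, mul_one] at h6
  obtain ⟨P, hP1, hP2⟩ := lift_DC _ δ hD
  have h7 : MvPolynomial.aeval (Sum.elim (fun o : Option (Fin q) => o.elim (2 * Real.pi * Complex.I) w)
      fun y : Fin k × Fin n × Fin n =>
        (Matrix.of (cper (er a m (1 / (tt (ε y.1) : ℝ)))) : Matrix (Fin n) (Fin n) ℂ) y.2.1 y.2.2) P = 0 := by
    rw [hP2, ← hQ0, ← hLe (pWi a m tt ↑E) (fun x hx => by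
        unfold pWi
        exact if_neg hx)]
    congr 2
    funext y
    unfold pWi
    simp only
    rw [if_pos (show (↑(ε y.1) : ℕ) ∈ (↑E : Set ℕ) from (ε y.1).2)]
    rfl
  have h8 : ((fun j => Matrix.of fun i i' => Y ⟨ε j, (i, i')⟩ : Fin k → Matrix (Fin n) (Fin n) ℂ),
      (2 * Real.pi * Complex.I : ℂ)) ∈ TorF (n := n) (fun j => f * (X - C (1 / (tt (ε j) : ℚ)))) := by
    rw [TorF_eq]
    refine ⟨two_pi_I_ne, fun j => ?_⟩
    have h6 := hY (ε j)
    unfold Fs at h6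
    rw [if_pos (show (↑(ε j) : ℕ) ∈ (↑E : Set ℕ) from (ε j).2)] at h6
    exact h6
  have h9 := rgw_use (lam := 2 * Real.pi * Complex.I) (by omega) hR rfl rfl (hP1.trans (by omega)) h7 h8 rfl
  rw [hP2] at h9
  rw [← hLe Y (fun x hx => by
      have h6 := hY x.1
      unfold Fs at h6
      have hx' : x.1 ∉ (↑E : Set ℕ) := hx
      rw [if_neg hx', Set.mem_singleton_iff] at h6
      exact congrFun h6 x.2)]
  exact h9

/-- one window -/
theorem window_good (hn : Even n) (a : Fin n → ℝ) (f : ℚ[X]) (hf : f.map (algebraMap ℚ ℝ) = ∏ i, (X - C (a i)))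
    (m : Fin (n + 1)) (h0 : StrictMono (er a m 0)) :
    ∃ G0 : ℕ, ∀ G : ℕ, G0 ≤ G → ∀ q H δ : ℕ, ∃ τ : ℕ, ∀ t : ℕ, τ ≤ t →
      (∀ u : ℕ, u ≤ H → G * u < t ∧ InGap a m (1 / ((t - G * u : ℕ) : ℝ))) ∧
      ∀ w : Fin q → ℂ, ∃ S : Finset ℕ, S ⊆ Finset.Icc 1 H ∧ 2 * S.card ≤ 2 * q + n * (n + 1) + 2 ∧
        ∀ Q : MvPolynomial (IW n) ℂ,
          DC δ ((Submodule.span ℚ (insert 1 (Set.range fun o : Option (Fin q) => o.elim (2 * Real.pi * Complex.I) w)))
            ^ δ) Q →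
          MvPolynomial.aeval (pWi a m (fun u => t - G * u) ↑(Finset.Icc 1 H \ S)) Q = 0 →
          ∀ Y ∈ FW (↑(Finset.Icc 1 H \ S) : Set ℕ) (fun u => Qt (n := n) f (t - G * u)) (2 * Real.pi * Complex.I),
            MvPolynomial.aeval Y Q = 0 := by
  classical
  have ha : StrictMono a := (inGap_of_er h0).1
  obtain ⟨G0, h1⟩ := wfinY hn a f hf m h0
  refine ⟨G0, fun G hG q H δ => ?_⟩
  set s : ℕ := q + n * (n + 1) / 2 + 1 with hs
  have hs2 : 2 * s = 2 * q + n * (n + 1) + 2 := by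
    have h2 : 2 * (n * (n + 1) / 2) = n * (n + 1) := Nat.mul_div_cancel' (Nat.even_mul_succ_self n).two_dvd
    omega
  obtain ⟨C₀, h2⟩ := h1 G hG (H - s) q
  refine ⟨(H + 2) ^ ((2 * δ + 1) + 2) ^ C₀, fun t ht => ?_⟩
  obtain ⟨h3, h4⟩ := h2 (2 * δ + 1) H t ht
  have hgap : ∀ u : ℕ, u ≤ H → G * u < t ∧ InGap a m (1 / ((t - G * u : ℕ) : ℝ)) := fun u hu =>
    ⟨(h3 u hu).1, (inGap_of_er (h3 u hu).2).2⟩
  refine ⟨hgap, fun w => ?_⟩
  rcases Nat.lt_or_ge s H with hsH | hsH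
  swap
  · refine ⟨Finset.Icc 1 H, subset_rfl, ?_, fun Q _ hQ0 Y hY => ?_⟩
    · rw [Nat.card_Icc]
      omega
    · rw [← hQ0]
      congr 2
      funext x
      have h5 : x.1 ∉ (↑(Finset.Icc 1 H \ Finset.Icc 1 H) : Set ℕ) := by simp
      have h6 := hY x.1
      unfold Fs at h6
      rw [if_neg h5, Set.mem_singleton_iff] at h6
      unfold pWi
      rw [if_neg h5]
      exact congrFun h6 x.2
  obtain ⟨S₀, -, hS2, h5⟩ := h4 w
  have hScard : (S₀ ∩ Finset.Icc 1 H).card ≤ s := by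
    have := Finset.card_le_card (Finset.inter_subset_left (s₁ := S₀) (s₂ := Finset.Icc 1 H))
    omega
  obtain ⟨S, hS3, hS4, hS5⟩ := Finset.exists_subsuperset_card_eq
    (Finset.inter_subset_right (s₁ := S₀) (s₂ := Finset.Icc 1 H)) hScard (by rw [Nat.card_Icc]; omega)
  refine ⟨S, hS4, by rw [hS5, hs2], fun Q hQ hQ0 Y hY => ?_⟩
  set E : Finset ℕ := Finset.Icc 1 H \ S with hE
  have hEc : E.card = H - s := by
    rw [hE, Finset.card_sdiff_of_subset hS4, hS5, Nat.card_Icc]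
    omega
  set ε : Fin (H - s) ≃o E := E.orderIsoOfFin hEc with hε
  set u : Fin (H - s) → ℕ := fun j => ε j with hu
  have huE : ∀ j, u j ∈ E := fun j => (ε j).2
  have hinj : Function.Injective u := Subtype.val_injective.comp ε.injective
  have huS : ∀ j, 1 ≤ u j ∧ u j ≤ H ∧ u j ∉ S₀ := by
    intro j
    obtain ⟨h6, h7⟩ := Finset.mem_sdiff.1 (huE j)
    obtain ⟨h8, h9⟩ := Finset.mem_Icc.1 h6
    refine ⟨h8, h9, fun h10 => h7 (hS3 (Finset.mem_inter.2 ⟨h10, h6⟩))⟩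
  obtain ⟨-, -, -, hR⟩ := h5 u hinj huS
  exact window_inner (a := a) (f := f) (m := m) (tt := fun u => t - G * u) ε hR hQ hQ0 hY

end Pool.Agent.L5helper73.Inf
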