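import Pool.Agent.L5helper73.Inf.H
import Pool.Agent.R351.GD.Hy.WinK

/-!
# Windows of hyperelliptic curves: the groups
-/

set_option autoImplicit false

open Matrix Polynomial NumberField

namespace Pool.Agent.L5helper73.Inf

open Pool.Agent.Y118.HP Pool.Agent.Y118.HG Pool.Agent.Y113

section inner

variable {n : ℕ}

/-- the index type of a window -/
abbrev IW (n : ℕ) : Type := Σ _ : ℕ, Fin n × Fin n

/-- the torsor of the curves with numbers in `E` -/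
def FW (E : Set ℕ) (Q : ℕ → Matrix (Fin n) (Fin n) ℂ) (lam : ℂ) : Set (IW n → ℂ) :=
  {Y | ∀ u, (fun i => Y ⟨u, i⟩) ∈ Fs (n := fun _ => n) E Q lam u}

open Classical in
/-- the curve given by rational symplectic matrices -/
noncomputable def ew (E : Set ℕ) (X0 q : ℕ → Matrix (Fin n) (Fin n) ℚ) (x : IW n) : ℚ[X] :=
  if x.1 ∈ E then (if Even (x.2.1 : ℕ) then C ((q x.1 * X0 x.1) x.2.1 x.2.2) * X + C 0 else
    C 0 * X + C ((q x.1 * X0 x.1) x.2.1 x.2.2)) else C 0 * X + C 0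

theorem ew_eval (E : Set ℕ) (X0 q : ℕ → Matrix (Fin n) (Fin n) ℚ) (lam : ℂ) (u : ℕ) (h : u ∈ E) :
    (fun i => (Polynomial.aeval lam (ew E X0 q ⟨u, i⟩) : ℂ)) =
      fl (Dg n lam * (q u).map (algebraMap ℚ ℂ) * (X0 u).map (algebraMap ℚ ℂ)) := by
  funext i
  unfold ew fl
  simp only
  rw [if_pos h, Matrix.mul_assoc, ← Matrix.map_mul]
  unfold Dg
  rw [Matrix.diagonal_mul, Matrix.map_apply]
  split_ifs with h1
  · rw [map_add, map_mul, Polynomial.aeval_C, Polynomial.aeval_X, Polynomial.aeval_C, map_zero, add_zero, mul_comm]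
  · simp

theorem ew_eval' (E : Set ℕ) (X0 q : ℕ → Matrix (Fin n) (Fin n) ℚ) (lam : ℂ) (u : ℕ) (h : u ∉ E) :
    (fun i => (Polynomial.aeval lam (ew E X0 q ⟨u, i⟩) : ℂ)) = 0 := by
  funext i
  unfold ew
  simp only
  rw [if_neg h]
  simp

theorem ew_mem {E : Set ℕ} {Q : ℕ → Matrix (Fin n) (Fin n) ℂ} {X0 : ℕ → Matrix (Fin n) (Fin n) ℚ}
    (hX0 : ∀ u ∈ E, (X0 u).map (algebraMap ℚ ℂ) * Q u * ((X0 u).map (algebraMap ℚ ℂ)).transpose = jm ℂ n)
    {q : ℕ → Matrix (Fin n) (Fin n) ℚ} (hq : ∀ u, q u ∈ SpS ℚ n) (lam : ℂ) :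
    (fun i => (Polynomial.aeval lam (ew E X0 q i) : ℂ)) ∈ FW E Q lam := by
  intro u
  unfold Fs
  by_cases h : u ∈ E
  · rw [if_pos h]
    show (fun i => (Polynomial.aeval lam (ew E X0 q ⟨u, i⟩) : ℂ)) ∈ FF (Q u) lam
    rw [ew_eval E X0 q lam u h]
    exact Dg_mem (hX0 u h) lam (SpS_map _ (hq u))
  · rw [if_neg h]
    show (fun i => (Polynomial.aeval lam (ew E X0 q ⟨u, i⟩) : ℂ)) ∈ ({0} : Set _)
    rw [ew_eval' E X0 q lam u h]
    rfl

theorem denseW (hn : Even n) {E : Set ℕ} {Q : ℕ → Matrix (Fin n) (Fin n) ℂ} {X0 : ℕ → Matrix (Fin n) (Fin n) ℚ}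
    (hX0 : ∀ u ∈ E, (X0 u).map (algebraMap ℚ ℂ) * Q u * ((X0 u).map (algebraMap ℚ ℂ)).transpose = jm ℂ n)
    {lam : ℂ} (hl : lam ≠ 0) (P : MvPolynomial (IW n) ℂ)
    (h : ∀ q : ℕ → Matrix (Fin n) (Fin n) ℚ, (∀ u, q u ∈ SpS ℚ n) →
      MvPolynomial.aeval (fun i => (Polynomial.aeval lam (ew E X0 q i) : ℂ)) P = 0) :
    ∀ Y ∈ FW E Q lam, MvPolynomial.aeval Y P = 0 := by
  intro Y hY
  refine step2 (I := fun _ => Fin n × Fin n) (F := Fs (n := fun _ => n) E Q lam) (R := Rs (n := fun _ => n) E X0 lam)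
    (fun j => Rs_ne (n := fun _ => n) lam j) (fun j => Fs_dense (n := fun _ => n) (fun _ => hn) hX0 hl j)
    (fun Y hY => ?_) hY
  have hq : ∀ u : ℕ, ∃ q : Matrix (Fin n) (Fin n) ℚ, q ∈ SpS ℚ n ∧
      (u ∈ E → (fun i => Y ⟨u, i⟩) = fl (Dg n lam * q.map (algebraMap ℚ ℂ) * (X0 u).map (algebraMap ℚ ℂ))) := by
    intro u
    by_cases h : u ∈ E
    · have h1 := hY u
      unfold Rs at h1
      rw [if_pos h] at h1
      obtain ⟨q, hq, h2⟩ := h1
      exact ⟨q, hq, fun _ => h2⟩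
    · exact ⟨1, SpS_one, fun hj => absurd hj h⟩
  choose q hq1 hq2 using hq
  rw [← h q hq1]
  congr 2
  funext x
  obtain ⟨u, i⟩ := x
  by_cases h : u ∈ E
  · have h1 : Y ⟨u, i⟩ = _ := congrFun (hq2 u h) i
    have h2 : (Polynomial.aeval lam (ew E X0 q ⟨u, i⟩) : ℂ) = _ := congrFun (ew_eval E X0 q lam u h) i
    rw [h1, h2]
  · have h1 := hY u
    unfold Rs at h1
    rw [if_neg h, Set.mem_singleton_iff] at h1
    have h2 : Y ⟨u, i⟩ = _ := congrFun h1 i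
    have h3 : (Polynomial.aeval lam (ew E X0 q ⟨u, i⟩) : ℂ) = _ := congrFun (ew_eval' E X0 q lam u h) i
    rw [h2, h3]

theorem irrW (hn : Even n) {E : Set ℕ} {Q : ℕ → Matrix (Fin n) (Fin n) ℂ} {X0 : ℕ → Matrix (Fin n) (Fin n) ℚ}
    (hX0 : ∀ u ∈ E, (X0 u).map (algebraMap ℚ ℂ) * Q u * ((X0 u).map (algebraMap ℚ ℂ)).transpose = jm ℂ n)
    {lam : ℂ} (hl : lam ≠ 0) (P P' : MvPolynomial (IW n) ℂ)
    (hP : ∃ y ∈ FW E Q lam, MvPolynomial.aeval y P ≠ 0) (hP' : ∃ y ∈ FW E Q lam, MvPolynomial.aeval y P' ≠ 0) :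
    ∃ y ∈ FW E Q lam, MvPolynomial.aeval y P ≠ 0 ∧ MvPolynomial.aeval y P' ≠ 0 := by
  obtain ⟨y, hy, h1⟩ := hP
  obtain ⟨y', hy', h2⟩ := hP'
  obtain ⟨z, hz, h3⟩ := step3 (I := fun _ => Fin n × Fin n) (F := Fs (n := fun _ => n) E Q lam)
    (fun j => Fs_irr (n := fun _ => n) (fun _ => hn) hX0 hl j) hy hy' h1 h2
  exact ⟨z, hz, h3⟩

end inner

/-- the groups: windows of curves -/
noncomputable def GW {n : ℕ → ℕ} (hn : ∀ j, Even (n j)) (E : ℕ → Set ℕ) (Q : ∀ j, ℕ → Matrix (Fin (n j)) (Fin (n j)) ℂ)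
    (X0 : ∀ j, ℕ → Matrix (Fin (n j)) (Fin (n j)) ℚ)
    (hX0 : ∀ j, ∀ u ∈ E j, (X0 j u).map (algebraMap ℚ ℂ) * Q j u * ((X0 j u).map (algebraMap ℚ ℂ)).transpose =
      jm ℂ (n j)) : Grp fun j => IW (n j) where
  F lam j := FW (E j) (Q j) lam
  E j := {e | ∃ q : ℕ → Matrix (Fin (n j)) (Fin (n j)) ℚ, (∀ u, q u ∈ SpS ℚ (n j)) ∧ e = ew (E j) (X0 j) q}
  ne j := ⟨_, fun _ => 1, fun _ => SpS_one, rfl⟩
  deg := by
    rintro j _ ⟨q, hq, rfl⟩ i
    unfold ew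
    split_ifs
    · exact ⟨_, _, rfl⟩
    · exact ⟨_, _, rfl⟩
    · exact ⟨_, _, rfl⟩
  mem := by
    rintro j _ ⟨q, hq, rfl⟩ lam
    exact ew_mem (hX0 j) hq lam
  dense := by
    intro lam hl j Q' h
    exact denseW (hn j) (hX0 j) hl Q' fun q hq => h _ ⟨q, hq, rfl⟩
  irr := by
    intro lam hl j P P' hP hP'
    exact irrW (hn j) (hX0 j) hl P P' hP hP'

/-- elements of powers of a span are values of polynomials -/
theorem exists_poly {κ : Type} [Fintype κ] (w : κ → ℂ) (d : ℕ) {z : ℂ}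
    (hz : z ∈ (Submodule.span ℚ (insert 1 (Set.range w))) ^ d) :
    ∃ p : MvPolynomial κ ℚ, p.totalDegree ≤ d ∧ MvPolynomial.aeval w p = z := by
  classical
  induction d generalizing z with
  | zero =>
    rw [pow_zero, Submodule.mem_one] at hz
    obtain ⟨r, rfl⟩ := hz
    exact ⟨MvPolynomial.C r, by simp, by simp⟩
  | succ d ih =>
    rw [pow_succ] at hz
    refine Submodule.mul_induction_on hz (fun a ha b hb => ?_) (fun a b ha hb => ?_)
    · obtain ⟨p, hp1, hp2⟩ := ih ha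
      have hb' : ∃ p' : MvPolynomial κ ℚ, p'.totalDegree ≤ 1 ∧ MvPolynomial.aeval w p' = b := by
        refine Submodule.span_induction (p := fun b _ => ∃ p' : MvPolynomial κ ℚ, p'.totalDegree ≤ 1 ∧
          MvPolynomial.aeval w p' = b) ?_ ?_ ?_ ?_ hb
        · rintro x (rfl | ⟨i, rfl⟩)
          · exact ⟨1, by simp, by simp⟩
          · exact ⟨MvPolynomial.X i, by simp, by simp⟩
        · exact ⟨0, by simp, by simp⟩
        · rintro x y _ _ ⟨p, hp, rfl⟩ ⟨p', hp', rfl⟩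
          exact ⟨p + p', (MvPolynomial.totalDegree_add _ _).trans (max_le hp hp'), by simp⟩
        · rintro r x _ ⟨p, hp, rfl⟩
          exact ⟨r • p, (MvPolynomial.totalDegree_smul_le _ _).trans hp, by simp⟩
      obtain ⟨p', hp1', hp2'⟩ := hb'
      exact ⟨p * p', (MvPolynomial.totalDegree_mul _ _).trans (Nat.add_le_add hp1 hp1'), by rw [map_mul, hp2, hp2']⟩
    · obtain ⟨p, hp, rfl⟩ := ha
      obtain ⟨p', hp', rfl⟩ := hb
      exact ⟨p + p', (MvPolynomial.totalDegree_add _ _).trans (max_le hp hp'), by simp⟩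

/-- polynomials with coefficients in powers of a span are values of polynomials with rational coefficients -/
theorem lift_DC {κ σ : Type} [Fintype κ] (w : κ → ℂ) (d : ℕ) {Q : MvPolynomial σ ℂ}
    (hQ : DC d ((Submodule.span ℚ (insert 1 (Set.range w))) ^ d) Q) :
    ∃ P : MvPolynomial (κ ⊕ σ) ℚ, P.totalDegree ≤ 2 * d ∧
      ∀ X : σ → ℂ, MvPolynomial.aeval (Sum.elim w X) P = MvPolynomial.aeval X Q := by
  classical
  choose p hp1 hp2 using fun s => exists_poly w d (hQ.2 s)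
  refine ⟨∑ s ∈ Q.support, MvPolynomial.rename Sum.inl (p s) * MvPolynomial.rename Sum.inr (MvPolynomial.monomial s 1),
    ?_, fun X => ?_⟩
  · refine (MvPolynomial.totalDegree_finsetSum _ _).trans (Finset.sup_le fun s hs => ?_)
    refine (MvPolynomial.totalDegree_mul _ _).trans ?_
    rw [two_mul]
    refine Nat.add_le_add ((MvPolynomial.totalDegree_rename_le _ _).trans (hp1 s))
      ((MvPolynomial.totalDegree_rename_le _ _).trans ?_)
    refine (MvPolynomial.totalDegree_monomial_le _ _).trans ?_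
    exact (MvPolynomial.le_totalDegree hs).trans hQ.1
  · rw [map_sum]
    conv_rhs => rw [MvPolynomial.aeval_def, MvPolynomial.eval₂_eq]
    refine Finset.sum_congr rfl fun s _ => ?_
    rw [map_mul, MvPolynomial.aeval_rename, MvPolynomial.aeval_rename, Sum.elim_comp_inl, Sum.elim_comp_inr, hp2,
      MvPolynomial.aeval_monomial, map_one, one_mul]
    rfl

end Pool.Agent.L5helper73.Inf
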