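import Pool.Agent.L5helper73.Inf.V

/-!
# Windows of hyperelliptic curves: infinitely many windows
-/

set_option autoImplicit false

open Matrix Polynomial NumberField

namespace Pool.Agent.L5helper73.Inf

open Pool.Agent.Y118.HP Pool.Agent.Y118.HG Pool.Agent.Y113 Pool.Agent.R351.GD.Hy

variable {n : ℕ → ℕ}

/-- the known numbers: `2πi`, the first `e` constants, the periods of the curves of the first `k` windows -/
def KW (a : ∀ j, Fin (n j) → ℝ) (m : ∀ j, Fin (n j + 1)) (c : ℕ → ℂ) (t G H : ℕ → ℕ) (e k : ℕ) : Set ℂ :=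
  {z | z = 2 * Real.pi * Complex.I ∨ (∃ i < e, z = c i) ∨
    ∃ i < k, ∃ u, 1 ≤ u ∧ u ≤ H i ∧ ∃ l l' : Fin (n i), z = cper (er (a i) (m i) (1 / ((t i - G i * u : ℕ) : ℝ))) l l'}

theorem KW_mono (a : ∀ j, Fin (n j) → ℝ) (m : ∀ j, Fin (n j + 1)) (c : ℕ → ℂ) (t G H : ℕ → ℕ) {e e' k k' : ℕ}
    (he : e ≤ e') (hk : k ≤ k') : KW a m c t G H e k ⊆ KW a m c t G H e' k' := by
  rintro z (h | ⟨i, hi, h⟩ | ⟨i, hi, u, h1, h2, l, l', h⟩)
  · exact Or.inl h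
  · exact Or.inr (Or.inl ⟨i, by omega, h⟩)
  · exact Or.inr (Or.inr ⟨i, by omega, u, h1, h2, l, l', h⟩)

/-- the indices of the known numbers -/
abbrev KWi (n H : ℕ → ℕ) (e k : ℕ) : Type := Fin e ⊕ Σ i : Fin k, Fin (H i) × Fin (n i) × Fin (n i)

theorem card_KWi (n H : ℕ → ℕ) (e k : ℕ) :
    Fintype.card (KWi n H e k) = e + ∑ i ∈ Finset.range k, H i * (n i * n i) := by
  rw [Fintype.card_sum, Fintype.card_fin, Fintype.card_sigma]
  congr 1
  rw [Finset.sum_range]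
  refine Finset.sum_congr rfl fun i _ => ?_
  rw [Fintype.card_prod, Fintype.card_prod, Fintype.card_fin, Fintype.card_fin]

noncomputable def kwf (a : ∀ j, Fin (n j) → ℝ) (m : ∀ j, Fin (n j + 1)) (c : ℕ → ℂ) (t G H : ℕ → ℕ) (e k : ℕ) :
    KWi n H e k → ℂ := Sum.elim (fun i => c i)
      fun x => cper (er (a x.1) (m x.1) (1 / ((t x.1 - G x.1 * (x.2.1 + 1) : ℕ) : ℝ))) x.2.2.1 x.2.2.2

theorem kwf_range (a : ∀ j, Fin (n j) → ℝ) (m : ∀ j, Fin (n j + 1)) (c : ℕ → ℂ) (t G H : ℕ → ℕ) (e k : ℕ) {q : ℕ}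
    (ε : Fin q ≃ KWi n H e k) :
    (Set.range fun o : Option (Fin q) => o.elim (2 * Real.pi * Complex.I) (kwf a m c t G H e k ∘ ε)) =
      KW a m c t G H e k := by
  ext z
  constructor
  · rintro ⟨_ | o, rfl⟩
    · exact Or.inl rfl
    · show kwf a m c t G H e k (ε o) ∈ _
      rcases ε o with i | ⟨i, u, l, l'⟩
      · exact Or.inr (Or.inl ⟨i, i.2, rfl⟩)
      · exact Or.inr (Or.inr ⟨i, i.2, u + 1, by omega, u.2, l, l', rfl⟩)
  · rintro (h | ⟨i, hi, h⟩ | ⟨i, hi, u, h1, h2, l, l', h⟩)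
    · exact ⟨none, h.symm⟩
    · refine ⟨some (ε.symm (Sum.inl ⟨i, hi⟩)), ?_⟩
      show kwf a m c t G H e k (ε (ε.symm (Sum.inl ⟨i, hi⟩))) = z
      rw [Equiv.apply_symm_apply]
      exact h.symm
    · refine ⟨some (ε.symm (Sum.inr ⟨⟨i, hi⟩, ⟨u - 1, by simp only; omega⟩, l, l'⟩)), ?_⟩
      show kwf a m c t G H e k (ε (ε.symm (Sum.inr ⟨⟨i, hi⟩, ⟨u - 1, _⟩, l, l'⟩))) = z
      rw [Equiv.apply_symm_apply, h]
      show cper (er (a i) (m i) (1 / ((t i - G i * ((u - 1) + 1) : ℕ) : ℝ))) l l' = _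
      rw [Nat.sub_add_cancel h1]

/-- **Infinitely many windows.** -/
theorem mainW (hn : ∀ j, Even (n j)) (a : ∀ j, Fin (n j) → ℝ) (f : ℕ → ℚ[X])
    (hf : ∀ j, (f j).map (algebraMap ℚ ℝ) = ∏ i, (X - C (a j i))) (m : ∀ j, Fin (n j + 1))
    (h0 : ∀ j, StrictMono (er (a j) (m j) 0)) (ψ : ℕ → ℕ) :
    ∃ G0 : ℕ → ℕ, ∀ G : ℕ → ℕ, (∀ j, G0 j ≤ G j) → ∀ H : ℕ → ℕ, ∃ τ : ℕ → ℕ, ∀ t : ℕ → ℕ, (∀ j, τ j ≤ t j) →
      (∀ j u, u ≤ H j → G j * u < t j ∧ InGap (a j) (m j) (1 / ((t j - G j * u : ℕ) : ℝ))) ∧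
      ∀ c : ℕ → ℂ, ∃ S : ℕ → Finset ℕ, (∀ j, S j ⊆ Finset.Icc 1 (H j)) ∧
        (∀ j, 2 * (S j).card ≤ 2 * (∑ i ∈ Finset.range (j + 1), ψ i + ∑ i ∈ Finset.range j, H i * (n i * n i)) +
          n j * (n j + 1) + 2) ∧
        ∃ δ : ℕ → ℕ, (∀ k j, k ≤ j → 2 * (ψ k * max 1 (ψ k)) ≤ δ j) ∧ ∃ W : ℕ → Submodule ℚ ℂ,
          (∀ k, KW a m c t G H (ψ k) k ⊆ W k) ∧
          ∃ D : Grp fun j => IW (n j), (∀ lam j, D.F lam j =
              FW (↑(Finset.Icc 1 (H j) \ S j) : Set ℕ) (fun u => Qt (n := n j) (f j) (t j - G j * u)) lam) ∧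
            Asm D (fun x => pWi (a x.1) (m x.1) (fun u => t x.1 - G x.1 * u)
              (↑(Finset.Icc 1 (H x.1) \ S x.1) : Set ℕ) x.2) W δ Set.univ := by
  classical
  set Φ : ℕ → ℕ := fun j => ∑ i ∈ Finset.range (j + 1), ψ i with hΦ
  have hΦm : Monotone Φ := fun i j hij => Finset.sum_le_sum_of_subset (Finset.range_mono (by omega))
  have hΦψ : ∀ k, ψ k ≤ Φ k := fun k => Finset.single_le_sum (f := ψ) (fun _ _ => Nat.zero_le _)
    (Finset.mem_range.2 (Nat.lt_succ_self k))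
  set δ : ℕ → ℕ := fun j => ∑ i ∈ Finset.range (j + 1), 2 * (ψ i * max 1 (ψ i)) with hδ
  have hδψ : ∀ k j, k ≤ j → 2 * (ψ k * max 1 (ψ k)) ≤ δ j := fun k j hkj =>
    Finset.single_le_sum (f := fun i => 2 * (ψ i * max 1 (ψ i))) (fun _ _ => Nat.zero_le _)
      (Finset.mem_range.2 (Nat.lt_succ_of_le hkj))
  have ha : ∀ j, StrictMono (a j) := fun j => (inGap_of_er (h0 j)).1
  choose G0 hG0 using fun j => window_good (hn j) (a j) (f j) (hf j) (m j) (h0 j)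
  refine ⟨G0, fun G hG H => ?_⟩
  choose τ hτ using fun j => hG0 j (G j) (hG j) (Fintype.card (KWi n H (Φ j) j)) (H j) (δ j)
  refine ⟨τ, fun t ht => ?_⟩
  have hgap := fun j => (hτ j (t j) (ht j)).1
  refine ⟨fun j u hu => hgap j u hu, fun c => ?_⟩
  set ε : ∀ j, Fin (Fintype.card (KWi n H (Φ j) j)) ≃ KWi n H (Φ j) j := fun j => (Fintype.equivFin _).symm with hε
  choose S hS1 hS2 hS3 using fun j => (hτ j (t j) (ht j)).2 (kwf a m c t G H (Φ j) j ∘ ε j)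
  refine ⟨S, hS1, fun j => ?_, δ, hδψ, fun k => Submodule.span ℚ (insert 1 (KW a m c t G H (Φ k) k)), fun k z hz => ?_, ?_⟩
  · have h1 := hS2 j
    rw [card_KWi] at h1
    exact h1
  · exact Submodule.subset_span (Set.mem_insert_of_mem _ (KW_mono a m c t G H (hΦψ k) le_rfl hz))
  have hEH : ∀ j, ∀ u ∈ (↑(Finset.Icc 1 (H j) \ S j) : Set ℕ), 1 ≤ u ∧ u ≤ H j := fun j u hu =>
    Finset.mem_Icc.1 (Finset.mem_sdiff.1 hu).1
  have hX0 : ∀ j u, ∃ X0 : Matrix (Fin (n j)) (Fin (n j)) ℚ, u ∈ (↑(Finset.Icc 1 (H j) \ S j) : Set ℕ) →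
      X0.map (algebraMap ℚ ℂ) * Qt (n := n j) (f j) (t j - G j * u) * (X0.map (algebraMap ℚ ℂ)).transpose =
        jm ℂ (n j) := by
    intro j u
    by_cases h : u ∈ (↑(Finset.Icc 1 (H j) \ S j) : Set ℕ)
    · have hcast : (((1 / ((t j - G j * u : ℕ) : ℚ) : ℚ)) : ℝ) = 1 / ((t j - G j * u : ℕ) : ℝ) := by push_cast; rfl
      have h1 := (hgap j u (hEH j u h).2).2
      rw [← hcast] at h1
      obtain ⟨X0, hX0⟩ := exists_X0 (hn j) (ha j) (hf j) h1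
      refine ⟨X0, fun _ => ?_⟩
      have hQc : ((-1 / 2 : ℚ) • (Qp (n j) (f j)).map (Polynomial.eval (1 / ((t j - G j * u : ℕ) : ℚ)))).map
          (algebraMap ℚ ℂ) = Qt (n := n j) (f j) (t j - G j * u) := by
        unfold Qt
        rw [← map_rat]
        ext r c
        rw [Matrix.map_apply, Matrix.smul_apply, Matrix.smul_apply]
        simp only [smul_eq_mul, map_mul]
        congr 1
        simp
      rw [← hQc, ← Matrix.transpose_map, ← Matrix.map_mul, ← Matrix.map_mul, hX0, jm_map]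
    · exact ⟨0, fun h' => absurd h' h⟩
  choose X0 hX0 using hX0
  refine ⟨GW hn (fun j => (↑(Finset.Icc 1 (H j) \ S j) : Set ℕ)) (fun j u => Qt (n := n j) (f j) (t j - G j * u)) X0
    (fun j u hu => hX0 j u hu), fun lam j => rfl, ?_⟩
  constructor
  · intro j
    exact Submodule.subset_span (Set.mem_insert _ _)
  · intro j
    exact Submodule.subset_span (Set.mem_insert_of_mem _ (Or.inl rfl))
  · intro i j hij
    exact Submodule.span_mono (Set.insert_subset_insert (KW_mono a m c t G H (hΦm hij) hij))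
  · rintro j k hjk ⟨u, i⟩
    unfold pWi
    simp only
    split_ifs with h
    · obtain ⟨h1, h2⟩ := hEH j u h
      exact Submodule.subset_span (Set.mem_insert_of_mem _ (Or.inr (Or.inr ⟨j, hjk, u, h1, h2, i.1, i.2, rfl⟩)))
    · exact Submodule.zero_mem _
  · intro j
    exact pWi_mem (hn j) (ha j) (m := m j) (hf j) (tt := fun u => t j - G j * u)
      (E := (↑(Finset.Icc 1 (H j) \ S j) : Set ℕ)) fun u hu => (hgap j u (hEH j u hu).2).2
  · intro j _ Q hQ hQ0 X hX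
    refine hS3 j Q ?_ hQ0 X hX
    rw [kwf_range]
    exact hQ

end Pool.Agent.L5helper73.Inf
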